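import Pool.Agent.Helper28.CQ.Stmts

set_option autoImplicit false

/-!
# DFLAT: coarse embeddings of `Z^m` into the graph product stay near a flat
-/

namespace CQ

open Relation

/-- a list lemma: total at most `4 D` -/
theorem dflat_list_aux (D : ℕ) : ∀ (l : List ℕ) (s : ℕ), s ≤ D → (∀ c ∈ l, c ≤ 2 * D) →
    (∀ (l₁ : List ℕ) (c : ℕ) (l₂ : List ℕ), l = l₁ ++ c :: l₂ →
      s + l₁.sum ≤ D ∨ c + l₂.sum ≤ D) → s + l.sum ≤ 4 * D := by
  intro l
  induction l with
  | nil => intro s hs _ _; simp; omega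
  | cons c l ih =>
    intro s hs hc hsplit
    have hc1 : c ≤ 2 * D := hc c (by simp)
    by_cases h : s + c ≤ D
    · have := ih (s + c) h (fun x hx => hc x (by simp [hx])) (by
        intro l₁ c' l₂ hl
        have := hsplit (c :: l₁) c' l₂ (by rw [hl]; rfl)
        simpa [add_assoc] using this)
      simpa [add_assoc] using this
    · cases l with
      | nil => simp; omega
      | cons c' l'' =>
        have := hsplit [c] c' l'' rfl
        simp only [List.sum_cons, List.sum_nil, add_zero] at this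
        simp only [List.sum_cons]
        omega

section

variable {n : ℕ} [NeZero n] {F : Type} [Group F] {ℓ : F → ℕ}

omit [NeZero n] in
theorem TW.dflat_exists_has (J : TW n F) : ∃ w, J.has w := by
  obtain ⟨i, c⟩ := J
  induction c using QuotientGroup.induction_on with
  | H w => exact ⟨w, rfl⟩

theorem dflat_nd_symm {G : Type*} [Group G] {ℓ : G → ℕ} (h : IsNorm ℓ) (x y : G) :
    nd ℓ x y = nd ℓ y x := by
  unfold nd
  rw [← h.inv]
  simp

theorem dflat_nd_tri {G : Type*} [Group G] {ℓ : G → ℕ} (h : IsNorm ℓ) (x y z : G) :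
    nd ℓ x z ≤ nd ℓ x y + nd ℓ y z := by
  unfold nd
  have := h.mul_le (x⁻¹ * y) (y⁻¹ * z)
  simpa [mul_assoc] using this

theorem dflat_nd_self {G : Type*} [Group G] {ℓ : G → ℕ} (h : IsNorm ℓ) (x : G) :
    nd ℓ x x = 0 := by
  unfold nd
  rw [h.eq_zero]
  simp

/-- big tree-walls -/
def DflatBig {m : ℕ} (P : GP n F ℓ) (σ : V m → CP n F) (D : ℕ) (J : TW n F) : Prop :=
  ∃ x x', 2 * D < nd ℓ (J.pi P (σ x)) (J.pi P (σ x'))

theorem dflat_near_dep {P : GP n F ℓ} (W : Walls P) (J : TW n F) (h : F) (a e : CP n F) (D : ℕ)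
    (he : e ∈ Wall P J h) (hd : nd (gN ℓ) a e ≤ D) : J.dep P a + nd ℓ h (J.pi P a) ≤ D := by
  have h1 := W.wall_dist J h e a he
  have h2 := W.m_le_gN J.1 (e⁻¹ * a)
  have h3 : gN ℓ (e⁻¹ * a) = nd (gN ℓ) a e := by
    rw [dflat_nd_symm W.norm]; rfl
  unfold nd at *
  omega

theorem dflat_big_near {m : ℕ} (hℓ : IsNorm ℓ) {P : GP n F ℓ} (W : Walls P) (σ : V m → CP n F)
    (D : ℕ)
    (hD : ∀ (J : TW n F) (h : F),
      (∀ x, J.pi P (σ x) = h → ∃ e ∈ Wall P J h, nd (gN ℓ) (σ x) e ≤ D) ∨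
      (∀ x, J.pi P (σ x) ≠ h → ∃ e ∈ Wall P J h, nd (gN ℓ) (σ x) e ≤ D))
    (J : TW n F) (hJ : DflatBig P σ D J) (x : V m) :
    ∃ e ∈ Wall P J (J.pi P (σ x)), nd (gN ℓ) (σ x) e ≤ D := by
  rcases hD J (J.pi P (σ x)) with h | h
  · exact h x rfl
  · exfalso
    have key : ∀ x', nd ℓ (J.pi P (σ x)) (J.pi P (σ x')) ≤ D := by
      intro x'
      by_cases hx : J.pi P (σ x') = J.pi P (σ x)
      · rw [hx, dflat_nd_self hℓ]; exact Nat.zero_le _
      · obtain ⟨e, he, hed⟩ := h x' hx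
        have := dflat_near_dep W J _ (σ x') e D he hed
        omega
    obtain ⟨x1, x2, h12⟩ := hJ
    have h1 := key x1
    have h2 := key x2
    have h3 := dflat_nd_tri hℓ (J.pi P (σ x1)) (J.pi P (σ x)) (J.pi P (σ x2))
    rw [dflat_nd_symm hℓ (J.pi P (σ x1)) (J.pi P (σ x))] at h3
    omega

theorem dflat_small {m : ℕ} {P : GP n F ℓ} (W : Walls P) (σ : V m → CP n F) (D : ℕ)
    (hD : ∀ (J : TW n F) (h : F),
      (∀ x, J.pi P (σ x) = h → ∃ e ∈ Wall P J h, nd (gN ℓ) (σ x) e ≤ D) ∨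
      (∀ x, J.pi P (σ x) ≠ h → ∃ e ∈ Wall P J h, nd (gN ℓ) (σ x) e ≤ D))
    (i : ZMod n) (hi : ∀ J : TW n F, J.1 = i → ¬ DflatBig P σ D J) (x y : V m) :
    P.m i ((σ x)⁻¹ * σ y) ≤ 4 * D := by
  obtain ⟨l, hl, hsplit⟩ := W.m_decomp i (σ x) (σ y)
  rw [hl]
  have := dflat_list_aux D (l.map fun p => p.2) 0 (Nat.zero_le _) ?_ ?_
  · simpa using this
  · intro c hc
    rw [List.mem_map] at hc
    obtain ⟨Jc, hJc, rfl⟩ := hc
    obtain ⟨l₁, l₂, rfl⟩ := List.append_of_mem hJc
    obtain ⟨h1, h2, h3, h4, h5⟩ := hsplit l₁ Jc l₂ rfl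
    have := hi Jc.1 h1
    unfold DflatBig at this
    push Not at this
    have h6 := this x y
    rw [h3]
    exact h6
  · intro m₁ c m₂ hm
    rw [List.map_eq_append_iff] at hm
    obtain ⟨l₁, l', hl', hl₁, hl₂⟩ := hm
    rw [List.map_eq_cons_iff] at hl₂
    obtain ⟨Jc, l₂, rfl, hc, hm₂⟩ := hl₂
    obtain ⟨h1, h2, h3, h4, h5⟩ := hsplit l₁ Jc l₂ hl'
    rcases hD Jc.1 (Jc.1.pi P (σ x)) with h | h
    · left
      obtain ⟨e, he, hed⟩ := h x rfl
      have := dflat_near_dep W Jc.1 _ (σ x) e D he hed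
      rw [← hl₁, ← h4]
      omega
    · right
      obtain ⟨e, he, hed⟩ := h y (Ne.symm h2)
      have := dflat_near_dep W Jc.1 _ (σ y) e D he hed
      rw [← hm₂, ← h5, ← hc, h3]
      unfold nd at this
      omega

theorem dflat_cross {m : ℕ} (hℓ : IsNorm ℓ) {P : GP n F ℓ} (W : Walls P) (σ : V m → CP n F)
    (D : ℕ)
    (hD : ∀ (J : TW n F) (h : F),
      (∀ x, J.pi P (σ x) = h → ∃ e ∈ Wall P J h, nd (gN ℓ) (σ x) e ≤ D) ∨
      (∀ x, J.pi P (σ x) ≠ h → ∃ e ∈ Wall P J h, nd (gN ℓ) (σ x) e ≤ D))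
    (hD2 : ∀ (J J' : TW n F) (h h' : F), ∃ x, (∀ e ∈ Wall P J h, D < nd (gN ℓ) (σ x) e) ∧
      ∀ e ∈ Wall P J' h', D < nd (gN ℓ) (σ x) e)
    (J K : TW n F) (hJ : DflatBig P σ D J) (hK : DflatBig P σ D K) (hne : J ≠ K) : Crs J K := by
  by_contra hc
  obtain ⟨a, ha⟩ := J.dflat_exists_has
  obtain ⟨b, hb⟩ := K.dflat_exists_has
  obtain ⟨x, hx1, hx2⟩ := hD2 J K (J.pi P b) (K.pi P a)
  rcases W.F3 J K a b hne hc ha hb (σ x) with h | h
  · obtain ⟨e, he, hed⟩ := dflat_big_near hℓ W σ D hD J hJ x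
    rw [h] at he
    have := hx1 e he
    omega
  · obtain ⟨e, he, hed⟩ := dflat_big_near hℓ W σ D hD K hK x
    rw [h] at he
    have := hx2 e he
    omega

omit [NeZero n] in
theorem dflat_Crs_symm {J K : TW n F} (h : Crs J K) : Crs K J := by
  obtain ⟨h1, w, h2, h3⟩ := h
  exact ⟨h1.symm, w, h3, h2⟩

theorem dflat_dI_const_ge {m : ℕ} (j : Fin m) (x y : V m) (N : ℕ) (hx : x j = 0) (hy : y j = (N : ℤ)) :
    N ≤ dI x y := by
  have h := (dI_le (x := x) (y := y) (r := dI x y)).1 le_rfl j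
  rw [hx, hy] at h
  simpa using h

/-- the two-big case -/
theorem dflat_two (hn : 5 ≤ n) {m : ℕ} (hℓ : IsNorm ℓ) {P : GP n F ℓ} (W : Walls P)
    (σ : V m → CP n F) (D : ℕ)
    (hD : ∀ (J : TW n F) (h : F),
      (∀ x, J.pi P (σ x) = h → ∃ e ∈ Wall P J h, nd (gN ℓ) (σ x) e ≤ D) ∨
      (∀ x, J.pi P (σ x) ≠ h → ∃ e ∈ Wall P J h, nd (gN ℓ) (σ x) e ≤ D))
    (i : ZMod n) (y : CP n F) (h1 : DflatBig P σ D (tw i y)) (h2 : DflatBig P σ D (tw (i + 1) y))
    (honly : ∀ J, DflatBig P σ D J → J = tw i y ∨ J = tw (i + 1) y) :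
    ∀ x, ∃ u ∈ Fl i, nd (gN ℓ) (σ x) (y * u) ≤ 2 * D + n * (4 * D) := by
  have hdep1 : ∀ x, P.t i (y⁻¹ * σ x) ≤ D := by
    intro x
    rw [← W.dep_tw]
    obtain ⟨e, he, hed⟩ := dflat_big_near hℓ W σ D hD _ h1 x
    have := dflat_near_dep W _ _ (σ x) e D he hed
    omega
  have hdep2 : ∀ x, P.t (i + 1) (y⁻¹ * σ x) ≤ D := by
    intro x
    rw [← W.dep_tw]
    obtain ⟨e, he, hed⟩ := dflat_big_near hℓ W σ D hD _ h2 x
    have := dflat_near_dep W _ _ (σ x) e D he hed
    omega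
  have h3ne : (3 : ZMod n) ≠ 0 := by
    intro h
    have : ((3 : ℕ) : ZMod n) = 0 := by exact_mod_cast h
    rw [ZMod.natCast_eq_zero_iff] at this
    have := Nat.le_of_dvd (by norm_num) this
    omega
  have hm : ∀ (k : ZMod n), k ≠ i → k ≠ i + 1 → ∀ x, P.m k (y⁻¹ * σ x) ≤ 4 * D := by
    intro k hki hki1 x
    obtain ⟨l, hl, hsplit⟩ := W.m_decomp k y (σ x)
    cases l with
    | nil => rw [hl]; simp
    | cons Kc l =>
      obtain ⟨q1, q2, q3, q4, q5⟩ := hsplit [] Kc l rfl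
      -- a big tree-wall through `y` which does not cross `Kc.1`
      have hJ : ∃ J : TW n F, DflatBig P σ D J ∧ J.has y ∧ J ≠ Kc.1 ∧ ¬ Crs J Kc.1 := by
        by_cases hc : Crs (tw i y) Kc.1
        · refine ⟨tw (i + 1) y, h2, rfl, ?_, ?_⟩
          · intro h
            apply hki1
            rw [← q1, ← h]; rfl
          · intro hc'
            have e1 := hc.1
            have e2 := hc'.1
            rw [q1] at e1 e2
            change i = k + 1 ∨ k = i + 1 at e1
            change i + 1 = k + 1 ∨ k = i + 1 + 1 at e2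
            rcases e1 with e1 | e1
            · rcases e2 with e2 | e2
              · exact hki (add_right_cancel e2).symm
              · apply h3ne
                have : k = k + 1 + 1 + 1 := by rw [← e1]; exact e2
                have h4 : k + 3 = k + 0 := by
                  rw [add_zero]
                  conv_rhs => rw [this]
                  ring
                exact add_left_cancel h4
            · exact hki1 e1
        · refine ⟨tw i y, h1, rfl, ?_, hc⟩
          intro h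
          apply hki
          rw [← q1, ← h]; rfl
      obtain ⟨J, hJb, hJy, hJne, hJc⟩ := hJ
      obtain ⟨b, hb⟩ := Kc.1.dflat_exists_has
      have hx0 : ∃ x0, J.pi P (σ x0) ≠ J.pi P b := by
        by_contra hcon
        push Not at hcon
        obtain ⟨x1, x2, h12⟩ := hJb
        rw [hcon x1, hcon x2, dflat_nd_self hℓ] at h12
        omega
      obtain ⟨x0, hx0⟩ := hx0
      have hK : Kc.1.pi P (σ x0) = Kc.1.pi P y := by
        rcases W.F3 J Kc.1 y b hJne hJc hJy hb (σ x0) with h | h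
        · exact absurd h hx0
        · exact h
      have hsep := W.m_sep Kc.1 (σ x0) (σ x) (by rw [hK]; exact q2)
      have hsm := dflat_small W σ D hD k (by
        intro J hJk hJb
        rcases honly J hJb with h | h
        · apply hki; rw [← hJk, h]; rfl
        · apply hki1; rw [← hJk, h]; rfl) x0 x
      rw [q1, hK, ← q3, q5] at hsep
      rw [hsep] at hsm
      rw [hl]
      simp only [List.map_cons, List.sum_cons]
      omega
  intro x
  refine ⟨ι i (P.pr i (y⁻¹ * σ x)) * ι (i + 1) (P.pr (i + 1) (y⁻¹ * σ x)), ?_, ?_⟩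
  · rw [W.Fl_mem]
    exact ⟨_, _, rfl⟩
  · rw [dflat_nd_symm W.norm]
    unfold nd
    rw [← mul_assoc, W.flat_dist]
    have hs : ∑ k ∈ Finset.univ.filter (fun k => k ≠ i ∧ k ≠ i + 1), P.m k (y⁻¹ * σ x)
        ≤ n * (4 * D) := by
      calc _ ≤ ∑ k ∈ Finset.univ.filter (fun k : ZMod n => k ≠ i ∧ k ≠ i + 1), 4 * D := by
            apply Finset.sum_le_sum
            intro k hk
            rw [Finset.mem_filter] at hk
            exact hm k hk.2.1 hk.2.2 x
        _ ≤ n * (4 * D) := by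
            rw [Finset.sum_const, smul_eq_mul]
            apply Nat.mul_le_mul_right
            calc _ ≤ (Finset.univ : Finset (ZMod n)).card := Finset.card_filter_le _ _
              _ = n := by rw [Finset.card_univ, ZMod.card]
    have := hdep1 x
    have := hdep2 x
    omega

end

theorem mod_DFLAT : S_DIC → S_HEX → S_WALLS → S_DFLAT := by
  intro hDIC hHEX hWALLS n _ hn F _ ℓ hℓ P m k ΔF hkm hcol K ρ
  have W := hWALLS n hn F ℓ hℓ P
  obtain ⟨D, hDD⟩ := hDIC n hn F ℓ hℓ P m k ΔF hkm hcol K ρ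
  refine ⟨2 * D + n * (4 * D), ?_⟩
  intro σ hσ
  obtain ⟨hD, hD2⟩ := hDD σ hσ
  have hm0 : 0 < m := by omega
  -- bound of `gN` when at most one big tree-wall
  have hsum : ∀ (x y : V m) (B : ℕ), (∀ i, P.m i ((σ x)⁻¹ * σ y) ≤ B) →
      nd (gN ℓ) (σ x) (σ y) ≤ n * B := by
    intro x y B hB
    unfold nd
    rw [P.N_eq]
    calc _ ≤ ∑ i : ZMod n, B := Finset.sum_le_sum (fun i _ => hB i)
      _ = n * B := by rw [Finset.sum_const, Finset.card_univ, ZMod.card, smul_eq_mul]
  by_cases h0 : ∃ J, DflatBig P σ D J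
  · obtain ⟨J, hJ⟩ := h0
    by_cases h1 : ∃ J', DflatBig P σ D J' ∧ J ≠ J'
    · -- two big ones
      obtain ⟨J', hJ', hne⟩ := h1
      have hcr := dflat_cross hℓ W σ D hD hD2 J J' hJ hJ' hne
      have honly : ∀ J'', DflatBig P σ D J'' → J'' = J ∨ J'' = J' := by
        intro J'' hJ''
        by_contra hcon
        push Not at hcon
        exact W.no_triangle J J' J'' hcr
          (dflat_cross hℓ W σ D hD hD2 J' J'' hJ' hJ'' (Ne.symm hcon.2))
          (dflat_cross hℓ W σ D hD hD2 J J'' hJ hJ'' (Ne.symm hcon.1))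
      obtain ⟨i, y, hiy⟩ := W.crs_flat J J' hcr
      refine ⟨y, i, ?_⟩
      rcases hiy with ⟨rfl, rfl⟩ | ⟨rfl, rfl⟩
      · exact dflat_two hn hℓ W σ D hD i y hJ hJ' honly
      · exact dflat_two hn hℓ W σ D hD i y hJ' hJ (fun J'' hJ'' => (honly J'' hJ'').symm)
    · -- exactly one big one
      exfalso
      push Not at h1
      have hdep : ∀ x, J.dep P (σ x) ≤ D := by
        intro x
        obtain ⟨e, he, hed⟩ := dflat_big_near hℓ W σ D hD J hJ x
        have := dflat_near_dep W J _ (σ x) e D he hed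
        omega
      have hbd : ∀ x y (S : ℕ), nd ℓ (J.pi P (σ x)) (J.pi P (σ y)) ≤ S →
          dI x y ≤ ρ (n * (4 * D + S)) := by
        intro x y S hS
        apply hσ.2
        apply hsum
        intro i
        by_cases hi : i = J.1
        · subst hi
          have := W.m_le J (σ x) (σ y)
          have h2 := hdep x
          have h3 := hdep y
          unfold nd at hS
          omega
        · have := dflat_small W σ D hD i (by
            intro J' hJ'i hJ'
            apply hi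
            rw [h1 J' hJ']; exact hJ'i.symm) x y
          omega
      obtain ⟨c, hc⟩ := hcol K
      have hkm' : k ≤ m := by omega
      let N : ℕ := ρ (n * (4 * D + ΔF K)) + 1
      obtain ⟨j, x, y, hxb, hxj, hyj, hcx, hpath⟩ := hHEX m (fun _ => N) hm0
        (fun x => Fin.castLE hkm' (c (J.pi P (σ x))))
      have hpath' : ReflTransGen (fun a b : F => a ∈ (Set.univ : Set F) ∧ b ∈ (Set.univ : Set F) ∧
          nd ℓ a b ≤ K ∧ c a = c b) (J.pi P (σ x)) (J.pi P (σ y)) := by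
        refine ReflTransGen.lift (fun x => J.pi P (σ x)) ?_ x y hpath
        intro a b hab
        refine ⟨Set.mem_univ _, Set.mem_univ _, ?_, ?_⟩
        · calc nd ℓ (J.pi P (σ a)) (J.pi P (σ b)) ≤ P.m J.1 ((σ a)⁻¹ * σ b) :=
                W.pi_lip J (σ a) (σ b)
            _ ≤ nd (gN ℓ) (σ a) (σ b) := W.m_le_gN _ _
            _ ≤ K := hσ.1 a b hab.2.2.1
        · have h1 := hab.2.2.2.1
          have h2 := hab.2.2.2.2
          have h3 : Fin.castLE hkm' (c (J.pi P (σ a))) = Fin.castLE hkm' (c (J.pi P (σ b))) := by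
            rw [h1, h2]
          exact Fin.castLE_injective hkm' h3
      have h4 := hc _ _ (Set.mem_univ _) hpath'
      have h5 := hbd x y _ h4
      have h6 := dflat_dI_const_ge j x y N hxj hyj
      omega
  · -- no big one
    exfalso
    push Not at h0
    have hb : ∀ x y : V m, dI x y ≤ ρ (n * (4 * D)) := by
      intro x y
      apply hσ.2
      apply hsum
      intro i
      exact dflat_small W σ D hD i (fun J _ => h0 J) x y
    have h1 := hb 0 (fun _ => ((ρ (n * (4 * D)) + 1 : ℕ) : ℤ))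
    have h2 := dflat_dI_const_ge (⟨0, hm0⟩ : Fin m) 0 (fun _ => ((ρ (n * (4 * D)) + 1 : ℕ) : ℤ))
      (ρ (n * (4 * D)) + 1) rfl rfl
    omega

end CQ
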