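import Pool.Agent.Helper28.CQ.Stmts

set_option autoImplicit false

/-!
# FINAL: word metrics and assembly
-/

namespace CQ

namespace FIN

/-! ## word lengths -/

section wl

variable {G : Type*} [Group G]

/-- a length function (norm without non-degeneracy) -/
structure Len (N : G → ℕ) : Prop where
  one : N 1 = 0
  inv : ∀ g, N g⁻¹ = N g
  mul_le : ∀ g h, N (g * h) ≤ N g + N h

theorem len_of_norm {ℓ : G → ℕ} (h : IsNorm ℓ) : Len ℓ :=
  ⟨(h.eq_zero 1).2 rfl, h.inv, h.mul_le⟩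

theorem wl_le (S : Set G) (g : G) (l : List G) (h : ∀ x ∈ l, x ∈ S ∨ x⁻¹ ∈ S)
    (hp : l.prod = g) : wl S g ≤ l.length :=
  Nat.sInf_le ⟨l, rfl, h, hp⟩

theorem wl_nonempty {S : Set G} (hS : Subgroup.closure S = ⊤) (g : G) :
    ∃ l : List G, (∀ x ∈ l, x ∈ S ∨ x⁻¹ ∈ S) ∧ l.prod = g := by
  have hg : g ∈ Subgroup.closure S := by rw [hS]; exact Subgroup.mem_top g
  induction hg using Subgroup.closure_induction with
  | mem x hx => exact ⟨[x], by simpa using Or.inl hx, by simp⟩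
  | one => exact ⟨[], by simp, by simp⟩
  | mul x y _ _ hx hy =>
    obtain ⟨l, hl, hl'⟩ := hx
    obtain ⟨m, hm, hm'⟩ := hy
    refine ⟨l ++ m, ?_, by simp [hl', hm']⟩
    intro z hz
    rcases List.mem_append.1 hz with h | h
    · exact hl z h
    · exact hm z h
  | inv x _ hx =>
    obtain ⟨l, hl, hl'⟩ := hx
    refine ⟨(l.map fun z => z⁻¹).reverse, ?_, ?_⟩
    · intro z hz
      rw [List.mem_reverse, List.mem_map] at hz
      obtain ⟨w, hw, rfl⟩ := hz
      rcases hl w hw with h | h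
      · right; simpa using h
      · left; exact h
    · rw [← List.prod_inv_reverse, hl']

theorem wl_spec {S : Set G} (hS : Subgroup.closure S = ⊤) (g : G) :
    ∃ l : List G, l.length = wl S g ∧ (∀ x ∈ l, x ∈ S ∨ x⁻¹ ∈ S) ∧ l.prod = g := by
  have hne : {n | ∃ l : List G, l.length = n ∧ (∀ x ∈ l, x ∈ S ∨ x⁻¹ ∈ S) ∧ l.prod = g}.Nonempty := by
    obtain ⟨l, hl, hl'⟩ := wl_nonempty hS g
    exact ⟨l.length, l, rfl, hl, hl'⟩
  exact Nat.sInf_mem hne

theorem wl_inv_le {S : Set G} (hS : Subgroup.closure S = ⊤) (g : G) : wl S g⁻¹ ≤ wl S g := by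
  obtain ⟨l, h1, h2, h3⟩ := wl_spec hS g
  rw [← h1]
  have := wl_le S g⁻¹ (l.map fun z => z⁻¹).reverse (by
    intro z hz
    rw [List.mem_reverse, List.mem_map] at hz
    obtain ⟨w, hw, rfl⟩ := hz
    rcases h2 w hw with h | h
    · right; simpa using h
    · left; exact h) (by rw [← List.prod_inv_reverse, h3])
  simpa using this

theorem wl_len {S : Set G} (hS : Subgroup.closure S = ⊤) : Len (wl S) where
  one := Nat.le_zero.1 (wl_le S 1 [] (by simp) (by simp))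
  inv := by
    intro g
    apply le_antisymm (wl_inv_le hS g)
    have := wl_inv_le hS g⁻¹
    rwa [inv_inv] at this
  mul_le := by
    intro g h
    obtain ⟨l, h1, h2, h3⟩ := wl_spec hS g
    obtain ⟨m, h4, h5, h6⟩ := wl_spec hS h
    rw [← h1, ← h4, ← List.length_append]
    apply wl_le
    · intro z hz
      rcases List.mem_append.1 hz with h | h
      · exact h2 z h
      · exact h5 z h
    · simp [h3, h6]

theorem len_prod {N : G → ℕ} (hN : Len N) (l : List G) : N l.prod ≤ (l.map N).sum := by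
  induction l with
  | nil => simp [hN.one]
  | cons a l ih =>
    simp only [List.prod_cons, List.map_cons, List.sum_cons]
    have := hN.mul_le a l.prod
    omega

theorem len_le_wl {N : G → ℕ} (hN : Len N) {S : Set G} (hS : Subgroup.closure S = ⊤) {K : ℕ}
    (hK : ∀ s ∈ S, N s ≤ K) (g : G) : N g ≤ K * wl S g := by
  obtain ⟨l, h1, h2, h3⟩ := wl_spec hS g
  rw [← h1, ← h3]
  clear h1 h3
  have h4 := len_prod hN l
  have h5 : (l.map N).sum ≤ K * l.length := by
    have : (l.map N).sum ≤ (l.map N).length • K := by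
      apply List.sum_le_card_nsmul
      intro x hx
      rw [List.mem_map] at hx
      obtain ⟨w, hw, rfl⟩ := hx
      rcases h2 w hw with h | h
      · exact hK w h
      · rw [← hN.inv]; exact hK _ h
    simpa [mul_comm] using this
  omega

omit [Group G] in
theorem exists_bound {S : Set G} (hS : S.Finite) (N : G → ℕ) : ∃ K, ∀ s ∈ S, N s ≤ K := by
  obtain ⟨K, hK⟩ := (hS.image N).bddAbove
  exact ⟨K, fun s hs => hK ⟨s, hs, rfl⟩⟩

theorem len_comp {H : Type*} [Group H] {N : H → ℕ} (hN : Len N) (φ : G →* H) :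
    Len (fun g => N (φ g)) where
  one := by rw [map_one, hN.one]
  inv := by intro g; rw [map_inv, hN.inv]
  mul_le := by intro g h; rw [map_mul]; exact hN.mul_le _ _

end wl

/-! ## `gN` is attained -/

theorem gN_spec {n : ℕ} {F : Type} [Group F] (ℓ : F → ℕ) (w : CP n F) :
    ∃ l : List (ZMod n × F), (l.map fun p => ι p.1 p.2).prod = w ∧
      (l.map fun p => ℓ p.2).sum = gN ℓ w := by
  have hne : {s | ∃ l : List (ZMod n × F), (l.map fun p => ι p.1 p.2).prod = w ∧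
    (l.map fun p => ℓ p.2).sum = s}.Nonempty := by
    induction w using CP.induction_right with
    | h1 => exact ⟨0, [], by simp, by simp⟩
    | hs w i s ih =>
      obtain ⟨_, l, hl, rfl⟩ := ih
      exact ⟨_, l ++ [(i, s)], by simp [hl], rfl⟩
  exact Nat.sInf_mem hne

/-- a length function on the graph product is bounded by the syllable norm -/
theorem len_le_gN {n : ℕ} [NeZero n] {F : Type} [Group F] {ℓ : F → ℕ} {N : CP n F → ℕ}
    (hN : Len N) {K : ℕ} (hK : ∀ (i : ZMod n) h, N (ι i h) ≤ K * ℓ h) (w : CP n F) :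
    N w ≤ K * gN ℓ w := by
  obtain ⟨l, h1, h2⟩ := gN_spec ℓ w
  rw [← h2, ← h1]
  clear h1 h2
  refine (len_prod hN _).trans ?_
  induction l with
  | nil => simp
  | cons a l ih =>
    simp only [List.map_cons, List.sum_cons]
    have := hK a.1 a.2
    rw [mul_add]
    omega

/-- word metrics and the syllable norm on `CP n F` are bilipschitz -/
theorem gN_wl {n : ℕ} [NeZero n] {F : Type} [Group F] {B : Set F} (hB : B.Finite)
    (hBc : Subgroup.closure B = ⊤) (hn : IsNorm (gN (wl B) : CP n F → ℕ))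
    {S : Set (CP n F)} (hS : S.Finite) (hSc : Subgroup.closure S = ⊤) :
    ∃ K, (∀ w, gN (wl B) w ≤ K * wl S w) ∧ ∀ w, wl S w ≤ K * gN (wl B) w := by
  obtain ⟨K₁, hK₁⟩ := exists_bound hS (gN (wl B))
  have h2 : ∃ K₂, ∀ i : ZMod n, ∀ b ∈ B, wl S (ι i b) ≤ K₂ := by
    have : ∀ i : ZMod n, ∃ K, ∀ b ∈ B, wl S (ι i b) ≤ K := fun i =>
      exists_bound hB (fun b => wl S (ι i b))
    choose K hK using this
    refine ⟨∑ i, K i, ?_⟩
    intro i b hb
    exact (hK i b hb).trans (Finset.single_le_sum (fun _ _ => Nat.zero_le _) (Finset.mem_univ i))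
  obtain ⟨K₂, hK₂⟩ := h2
  refine ⟨K₁ + K₂, ?_, ?_⟩
  · intro w
    have := len_le_wl (len_of_norm hn) hSc hK₁ w
    rw [add_mul]; omega
  · intro w
    have h3 : ∀ (i : ZMod n) (h : F), wl S (ι i h) ≤ K₂ * wl B h := by
      intro i h
      exact len_le_wl (len_comp (wl_len hSc) (ι i)) hBc (hK₂ i) h
    have := len_le_gN (wl_len hSc) h3 w
    rw [add_mul]; omega

/-! ## from `QI` to `QIP` -/

theorem nd_symm {G : Type*} [Group G] {ℓ : G → ℕ} (h : IsNorm ℓ) (x y : G) :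
    nd ℓ x y = nd ℓ y x := by
  unfold nd
  rw [← h.inv]
  simp

theorem nd_tri {G : Type*} [Group G] {ℓ : G → ℕ} (h : IsNorm ℓ) (x y z : G) :
    nd ℓ x z ≤ nd ℓ x y + nd ℓ y z := by
  unfold nd
  have := h.mul_le (x⁻¹ * y) (y⁻¹ * z)
  simpa [mul_assoc] using this

theorem qip_of {A B : Type*} [Group A] [Group B] {ℓA : A → ℕ} {ℓB : B → ℕ} (hB : IsNorm ℓB)
    {f : A → B} {K : ℕ} (h1 : ∀ x y, nd ℓB (f x) (f y) ≤ K * nd ℓA x y + K)
    (h2 : ∀ x y, nd ℓA x y ≤ K * nd ℓB (f x) (f y) + K)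
    (h3 : ∀ h, ∃ x, nd ℓB (f x) h ≤ K) :
    ∃ (g : B → A) (K' : ℕ), QIP (nd ℓA) (nd ℓB) K' f g := by
  choose g hg using h3
  refine ⟨g, 2 * K * K + 2 * K, ?_, ?_, ?_, ?_⟩
  · intro x y
    have := h1 x y
    have h : K * nd ℓA x y ≤ (2 * K * K + 2 * K) * nd ℓA x y :=
      Nat.mul_le_mul_right _ (by nlinarith)
    nlinarith
  · intro x y
    have e1 := h2 (g x) (g y)
    have e2 := nd_tri hB (f (g x)) x (f (g y))
    have e3 := nd_tri hB x y (f (g y))
    have e4 := hg x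
    have e5 := hg y
    rw [nd_symm hB] at e5
    have e6 : nd ℓB (f (g x)) (f (g y)) ≤ nd ℓB x y + 2 * K := by omega
    have e7 : K * nd ℓB (f (g x)) (f (g y)) ≤ K * (nd ℓB x y + 2 * K) :=
      Nat.mul_le_mul_left _ e6
    have e8 : K * nd ℓB x y ≤ (2 * K * K + 2 * K) * nd ℓB x y :=
      Nat.mul_le_mul_right _ (by nlinarith)
    nlinarith
  · intro x
    have e1 := h2 x (g (f x))
    have e2 := hg (f x)
    rw [nd_symm hB] at e2
    have e3 : K * nd ℓB (f x) (f (g (f x))) ≤ K * K := Nat.mul_le_mul_left _ e2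
    nlinarith
  · intro y
    have e2 := hg y
    rw [nd_symm hB] at e2
    nlinarith

/-! ## the groups `L 4 1` and `L 4 2` -/

/-- `(c, p, r) ↦ (c, p, 0)` -/
def forget (d k k' : ℕ) : L d k →* L d k' where
  toFun a := ⟨a.lamp, a.pos, 0, a.fin⟩
  map_one' := L.ext' (fun _ => rfl) rfl rfl
  map_mul' a b := L.ext' (fun _ => rfl) rfl (by simp)

theorem forget_gens (d k k' : ℕ) (hg : Subgroup.closure (L.gens d k') = ⊤) :
    ∀ s ∈ L.gens d k, wl (L.gens d k') (forget d k k' s) ≤ 1 := by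
  intro s hs
  rcases hs with (hs | ⟨i, rfl⟩) | hs
  · rw [Set.mem_singleton_iff] at hs
    subst hs
    have : forget d k k' L.tog = L.tog := L.ext' (fun _ => rfl) rfl rfl
    rw [this]
    exact wl_le _ _ [L.tog] (by intro x hx; simp at hx; subst hx; left; left; left; rfl) (by simp)
  · have : forget d k k' (L.pt (Pi.single i 1) 0) = L.pt (Pi.single i 1) 0 :=
      L.ext' (fun _ => rfl) rfl rfl
    show wl (L.gens d k') (forget d k k' (L.pt (Pi.single i 1) 0)) ≤ 1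
    rw [this]
    exact wl_le _ _ [L.pt (Pi.single i 1) 0]
      (by intro x hx; simp at hx; subst hx; left; left; right; exact ⟨i, rfl⟩) (by simp)
  · rw [Set.mem_singleton_iff] at hs
    subst hs
    have : forget d k k' (L.pt 0 1) = 1 := L.ext' (fun _ => rfl) rfl rfl
    rw [this, (wl_len hg).one]
    exact Nat.zero_le _

theorem forget_le (d k k' : ℕ) (hg : Subgroup.closure (L.gens d k) = ⊤)
    (hg' : Subgroup.closure (L.gens d k') = ⊤) (x : L d k) :
    wl (L.gens d k') (forget d k k' x) ≤ wl (L.gens d k) x := by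
  have := len_le_wl (len_comp (wl_len hg') (forget d k k')) hg (forget_gens d k k' hg') x
  simpa using this

theorem L_infinite (d k : ℕ) (hd : 0 < d) : Infinite (L d k) := by
  have : Nonempty (Fin d) := ⟨⟨0, hd⟩⟩
  have : Infinite (V d) := Pi.infinite_of_exists_right (⟨0, hd⟩ : Fin d)
  exact Infinite.of_injective (fun p : V d => (L.pt p 0 : L d k)) (by
    intro p q h
    have := congrArg L.pos h
    exact this)

theorem QI_L (hLP : S_LP) (d : ℕ) : QI (L d 1) (L d 2) := by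
  have h1 := hLP d 1
  have h2 := hLP d 2
  refine ⟨L.gens d 1, L.gens d 2, h1.fin, h2.fin, h1.gen, h2.gen, forget d 1 2, 1, 1, ?_, ?_⟩
  · intro x y
    unfold wd
    constructor
    · have := forget_le d 1 2 h1.gen h2.gen (x⁻¹ * y)
      rw [map_mul, map_inv] at this
      omega
    · have := forget_le d 2 1 h2.gen h1.gen (forget d 1 2 (x⁻¹ * y))
      have e : forget d 2 1 (forget d 1 2 (x⁻¹ * y)) = x⁻¹ * y :=
        L.ext' (fun _ => rfl) rfl (Subsingleton.elim _ _)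
      rw [e, map_mul, map_inv] at this
      omega
  · intro h
    refine ⟨forget d 2 1 h, ?_⟩
    unfold wd
    have e : (forget d 1 2 (forget d 2 1 h))⁻¹ * h = L.pt 0 h.rot := by
      apply L.ext'
      · intro q
        have : ((forget d 1 2 (forget d 2 1 h))⁻¹ * h).lamp q =
          h.lamp (q + h.pos) + h.lamp (q - (-h.pos)) := rfl
        rw [this, sub_neg_eq_add]
        exact CharTwo.add_self_eq_zero _
      · show -h.pos + h.pos = 0
        simp
      · show -0 + h.rot = h.rot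
        simp
    rw [e]
    have h01 : h.rot = 0 ∨ h.rot = 1 := by
      have : ∀ r : ZMod 2, r = 0 ∨ r = 1 := by decide
      exact this _
    rcases h01 with h0 | h0
    · rw [h0]
      have : (L.pt 0 0 : L d 2) = 1 := L.ext' (fun _ => rfl) rfl rfl
      rw [this, (wl_len h2.gen).one]
      exact Nat.zero_le _
    · rw [h0]
      exact wl_le _ _ [L.pt 0 1] (by intro x hx; simp at hx; subst hx; left; right; rfl)
        (by simp)

theorem Nb_mono {X : Type*} {d : X → X → ℕ} {C C' : ℕ} (h : C ≤ C') {A B : Set X}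
    (hN : Nb d C A B) : Nb d C' A B := by
  intro a ha
  obtain ⟨b, hb, hab⟩ := hN a ha
  exact ⟨b, hb, hab.trans h⟩

end FIN

open FIN in
theorem mod_FINAL : S_LP → S_LLK → S_NOBIJ → S_GP → S_WALLS → S_LFIMG → S_FFLAT → S_GTREE →
    S_FINAL := by
  intro hLP hLLK hNOBIJ hGP hWALLS hLFIMG hFFLAT hGTREE n hn
  have : NeZero n := ⟨by omega⟩
  have F1 := hLP 4 1
  have F2 := hLP 4 2
  refine ⟨L 4 1, L 4 2, inferInstance, inferInstance, L_infinite 4 1 (by norm_num),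
    L_infinite 4 2 (by norm_num), ?_, ?_, QI_L hLP 4, ?_⟩
  · rw [Group.fg_iff]
    exact ⟨L.gens 4 1, F1.gen, F1.fin⟩
  · rw [Group.fg_iff]
    exact ⟨L.gens 4 2, F2.gen, F2.fin⟩
  · rintro ⟨S, T, hS, hT, hSc, hTc, f, K, C, hf, hfs⟩
    obtain ⟨P₁⟩ := hGP n hn (L 4 1) (LN 4 1) F1.norm
    obtain ⟨P₂⟩ := hGP n hn (L 4 2) (LN 4 2) F2.norm
    have W₁ := hWALLS n hn (L 4 1) (LN 4 1) F1.norm P₁
    have W₂ := hWALLS n hn (L 4 2) (LN 4 2) F2.norm P₂
    obtain ⟨K₁, a1, a2⟩ := gN_wl F1.fin F1.gen W₁.norm hS hSc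
    obtain ⟨K₂, b1, b2⟩ := gN_wl F2.fin F2.gen W₂.norm hT hTc
    have hq : ∃ (g : CP n (L 4 2) → CP n (L 4 1)) (K' : ℕ),
        QIP (nd (gN (LN 4 1))) (nd (gN (LN 4 2))) K' f g := by
      apply qip_of (K := K₂ * K * K₁ + K₁ * K * K₂ + K₂ * C + K₁ * C) W₂.norm
      · intro x y
        have e1 : nd (gN (LN 4 2)) (f x) (f y) ≤ K₂ * wd T (f x) (f y) := b1 _
        have e2 := (hf x y).1
        have e3 : wd S x y ≤ K₁ * nd (gN (LN 4 1)) x y := a2 _
        have e4 : K * wd S x y ≤ K * (K₁ * nd (gN (LN 4 1)) x y) := Nat.mul_le_mul_left _ e3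
        have e5 : K₂ * wd T (f x) (f y) ≤ K₂ * (K * (K₁ * nd (gN (LN 4 1)) x y) + C) :=
          Nat.mul_le_mul_left _ (by omega)
        have e6 : K₂ * K * K₁ * nd (gN (LN 4 1)) x y ≤
            (K₂ * K * K₁ + K₁ * K * K₂ + K₂ * C + K₁ * C) * nd (gN (LN 4 1)) x y :=
          Nat.mul_le_mul_right _ (by omega)
        have e7 : K₂ * (K * (K₁ * nd (gN (LN 4 1)) x y) + C) =
          K₂ * K * K₁ * nd (gN (LN 4 1)) x y + K₂ * C := by ring
        omega
      · intro x y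
        have e1 : nd (gN (LN 4 1)) x y ≤ K₁ * wd S x y := a1 _
        have e2 := (hf x y).2
        have e3 : wd T (f x) (f y) ≤ K₂ * nd (gN (LN 4 2)) (f x) (f y) := b2 _
        have e4 : K * wd T (f x) (f y) ≤ K * (K₂ * nd (gN (LN 4 2)) (f x) (f y)) :=
          Nat.mul_le_mul_left _ e3
        have e5 : K₁ * wd S x y ≤ K₁ * (K * (K₂ * nd (gN (LN 4 2)) (f x) (f y)) + C) :=
          Nat.mul_le_mul_left _ (by omega)
        have e6 : K₁ * K * K₂ * nd (gN (LN 4 2)) (f x) (f y) ≤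
            (K₂ * K * K₁ + K₁ * K * K₂ + K₂ * C + K₁ * C) * nd (gN (LN 4 2)) (f x) (f y) :=
          Nat.mul_le_mul_right _ (by omega)
        have e7 : K₁ * (K * (K₂ * nd (gN (LN 4 2)) (f x) (f y)) + C) =
          K₁ * K * K₂ * nd (gN (LN 4 2)) (f x) (f y) + K₁ * C := by ring
        omega
      · intro h
        obtain ⟨x, hx⟩ := hfs h
        refine ⟨x, ?_⟩
        have e1 : nd (gN (LN 4 2)) (f x) h ≤ K₂ * wd T (f x) h := b1 _
        have e2 : K₂ * wd T (f x) h ≤ K₂ * C := Nat.mul_le_mul_left _ hx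
        omega
    obtain ⟨g, K', hq⟩ := hq
    have hq' : QIP (nd (gN (LN 4 2))) (nd (gN (LN 4 1))) K' g f := ⟨hq.g_le, hq.f_le, hq.fg, hq.gf⟩
    obtain ⟨⟨C₁, hC₁⟩, ⟨D₁, hD₁⟩, hE₁⟩ := hLFIMG 4 1 2 le_rfl n hn P₂ K' f g hq
    obtain ⟨⟨C₂, hC₂⟩, ⟨D₂, hD₂⟩, hE₂⟩ := hLFIMG 4 2 1 le_rfl n hn P₁ K' g f hq'
    have L1 := hLLK 4 1 (by norm_num)
    have L2 := hLLK 4 2 (by norm_num)
    have hC₁' : ∀ y i, ∃ y' i', Nb (nd (gN (LN 4 2))) (C₁ + C₂) (f '' LF (L.M 4 1) y i)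
        (LF (L.M 4 2) y' i') := by
      intro y i
      obtain ⟨y', i', h⟩ := hC₁ y i
      exact ⟨y', i', Nb_mono (by omega) h⟩
    have hC₂' : ∀ y i, ∃ y' i', Nb (nd (gN (LN 4 1))) (C₁ + C₂) (g '' LF (L.M 4 2) y i)
        (LF (L.M 4 1) y' i') := by
      intro y i
      obtain ⟨y', i', h⟩ := hC₂ y i
      exact ⟨y', i', Nb_mono (by omega) h⟩
    obtain ⟨C₃, hC₃⟩ := hFFLAT n hn (L 4 1) (L 4 2) (LN 4 1) (LN 4 2) F1.norm F2.norm
      (L.M 4 1) (L.M 4 2) L.tog L.tog L1 L2 P₁ P₂ K' (C₁ + C₂) D₁ f g hq hC₁' hC₂' hD₁ hE₁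
    obtain ⟨C₄, hC₄⟩ := hFFLAT n hn (L 4 2) (L 4 1) (LN 4 2) (LN 4 1) F2.norm F1.norm
      (L.M 4 2) (L.M 4 1) L.tog L.tog L2 L1 P₂ P₁ K' (C₁ + C₂) D₂ g f hq' hC₂' hC₁' hD₂ hE₂
    have u1 : ∀ r : ℕ, ∃ a, r < LN 4 1 a := fun r => by
      obtain ⟨a, _, ha⟩ := L1.unb r
      exact ⟨a, ha⟩
    have u2 : ∀ r : ℕ, ∃ a, r < LN 4 2 a := fun r => by
      obtain ⟨a, _, ha⟩ := L2.unb r
      exact ⟨a, ha⟩
    obtain ⟨β, K'', hβ⟩ := hGTREE n hn (L 4 1) (L 4 2) (LN 4 1) (LN 4 2) F1.norm F2.norm u1 u2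
      P₁ P₂ K' (C₃ + C₄) f g hq (by
        intro y i
        obtain ⟨y', i', h⟩ := hC₃ y i
        exact ⟨y', i', Nb_mono (by omega) h⟩) (by
        intro y i
        obtain ⟨y', i', h⟩ := hC₄ y i
        exact ⟨y', i', Nb_mono (by omega) h⟩)
    exact hNOBIJ 4 (by norm_num) ⟨β, K'', hβ⟩

end CQ
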