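import Pool.Agent.Helper81.CQ.GTa

set_option autoImplicit false

/-!
# GTb: sector connectivity and the bijection of vertex groups
-/

namespace CQ

namespace GT

variable {n : ℕ} [NeZero n] {F : Type} [Group F] {ℓ : F → ℕ}

/-- tree-walls different from `J` and not crossing it -/
def Av (J K : TW n F) : Prop := K ≠ J ∧ ¬ Crs J K

omit [NeZero n] in
theorem Av_of_type {J K : TW n F} (h1 : K.1 ≠ J.1) (h2 : J.1 ≠ K.1 + 1) (h3 : K.1 ≠ J.1 + 1) :
    Av J K :=
  ⟨fun h => h1 (by rw [h]), fun h => h.1.elim h2 h3⟩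

theorem Av_of_same {P : GP n F ℓ} (W : Walls P) {J K : TW n F} (h1 : K.1 = J.1) (h2 : K ≠ J) :
    Av J K :=
  ⟨h2, fun h => W.crs_ne J K h h1.symm⟩

omit [NeZero n] in
theorem ι_mem_St (k j : ZMod n) (h : j = k ∨ j = k - 1 ∨ j = k + 1) (s : F) :
    (ι j s : CP n F) ∈ St k := by
  unfold St Lam
  rcases h with rfl | rfl | rfl
  · exact Subgroup.mem_sup_left ⟨s, rfl⟩
  · exact Subgroup.mem_sup_right (Subgroup.mem_sup_left ⟨s, rfl⟩)
  · exact Subgroup.mem_sup_right (Subgroup.mem_sup_right ⟨s, rfl⟩)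

theorem tw_step {P : GP n F ℓ} (W : Walls P) (k j : ZMod n) (h : j = k ∨ j = k - 1 ∨ j = k + 1)
    (w : CP n F) (s : F) : tw k (w * ι j s) = tw k w := by
  symm
  rw [W.tw_eq]
  refine ⟨rfl, ?_⟩
  rw [inv_mul_cancel_left]
  exact ι_mem_St k j h s

omit [NeZero n] in
/-- crossing of consecutive tree-walls at a point -/
theorem crs_pt (k : ZMod n) (w : CP n F) : Crs (tw k w) (tw (k + 1) w) := crs_succ k w

section sector

variable {P : GP n F ℓ} (W : Walls P) (hn : 5 ≤ n) (J : TW n F) {α : Type*} (φ : TW n F → α)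
  (hφ : ∀ A B, Av J A → Av J B → Crs A B → φ A = φ B)

theorem Av_far (w : CP n F) (t : ℕ) (ht : t + 4 ≤ n) : Av J (tw (J.1 + 2 + (t : ZMod n)) w) := by
  apply Av_of_type
  · intro h
    change J.1 + 2 + (t : ZMod n) = J.1 at h
    apply zc (n := n) (t + 2) (by omega) (by omega)
    push_cast
    linear_combination h
  · intro h
    change J.1 = J.1 + 2 + (t : ZMod n) + 1 at h
    apply zc (n := n) (t + 3) (by omega) (by omega)
    push_cast
    linear_combination -h
  · intro h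
    change J.1 + 2 + (t : ZMod n) = J.1 + 1 at h
    apply zc (n := n) (t + 1) (by omega) (by omega)
    push_cast
    linear_combination h

include hφ in
theorem far_const (w : CP n F) (t : ℕ) (ht : t + 4 ≤ n) :
    φ (tw (J.1 + 2 + (t : ZMod n)) w) = φ (tw (J.1 + 2) w) := by
  induction t with
  | zero => simp
  | succ t ih =>
    rw [← ih (by omega)]
    symm
    apply hφ _ _ (Av_far J w t (by omega)) (Av_far J w (t + 1) ht)
    have := crs_pt (J.1 + 2 + (t : ZMod n)) w
    rw [add_assoc (J.1 + 2)] at this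
    push_cast
    exact this

theorem far_exists (k : ZMod n) (h1 : k ≠ J.1) (h2 : k ≠ J.1 + 1) (h3 : k ≠ J.1 - 1) :
    ∃ t : ℕ, t + 4 ≤ n ∧ k = J.1 + 2 + (t : ZMod n) := by
  refine ⟨(k - (J.1 + 2)).val, ?_, ?_⟩
  · have hlt := ZMod.val_lt (k - (J.1 + 2))
    have hval : (((k - (J.1 + 2)).val : ℕ) : ZMod n) = k - (J.1 + 2) := by simp
    by_contra hcon
    have hn0 : ((n : ℕ) : ZMod n) = 0 := by simp
    have : (k - (J.1 + 2)).val + 3 = n ∨ (k - (J.1 + 2)).val + 2 = n ∨
      (k - (J.1 + 2)).val + 1 = n := by omega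
    rcases this with h | h | h
    · apply h3
      have h' : ((((k - (J.1 + 2)).val + 3 : ℕ)) : ZMod n) = 0 := by rw [h]; exact hn0
      push_cast at h'
      rw [hval] at h'
      linear_combination h'
    · apply h1
      have h' : ((((k - (J.1 + 2)).val + 2 : ℕ)) : ZMod n) = 0 := by rw [h]; exact hn0
      push_cast at h'
      rw [hval] at h'
      linear_combination h'
    · apply h2
      have h' : ((((k - (J.1 + 2)).val + 1 : ℕ)) : ZMod n) = 0 := by rw [h]; exact hn0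
      push_cast at h'
      rw [hval] at h'
      linear_combination h'
  · simp

include W hn hφ in
/-- (a) at a point all tree-walls in the avoiding set have the same value -/
theorem pt_const (w : CP n F) (k : ZMod n) (hk : Av J (tw k w)) :
    φ (tw k w) = φ (tw (J.1 + 2) w) := by
  have up : ∀ w, Av J (tw (J.1 + 1) w) → φ (tw (J.1 + 1) w) = φ (tw (J.1 + 2) w) := by
    intro w h
    have h0 := Av_far J w 0 (by omega)
    rw [Nat.cast_zero, add_zero] at h0
    apply hφ _ _ h h0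
    have := crs_pt (J.1 + 1) w
    rwa [show J.1 + 1 + 1 = J.1 + 2 by ring] at this
  have dn : ∀ w, Av J (tw (J.1 - 1) w) → φ (tw (J.1 - 1) w) = φ (tw (J.1 + 2) w) := by
    intro w h
    have h0 := Av_far J w (n - 4) (by omega)
    have h1 := far_const J φ hφ w (n - 4) (by omega)
    rw [← h1]
    have e : J.1 + 2 + ((n - 4 : ℕ) : ZMod n) = J.1 - 2 := by
      rw [Nat.cast_sub (by omega)]
      simp
      ring
    rw [e] at h0 ⊢
    symm
    apply hφ _ _ h0 h
    have := crs_pt (J.1 - 2) w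
    rwa [show J.1 - 2 + 1 = J.1 - 1 by ring] at this
  by_cases h1 : k = J.1
  · subst h1
    -- one of the neighbours is in the avoiding set
    have hw : ¬ J.has w := hk.1
    by_cases hu : Av J (tw (J.1 + 1) w)
    · rw [← up w hu]
      exact hφ _ _ hk hu (crs_pt _ w)
    · by_cases hd : Av J (tw (J.1 - 1) w)
      · rw [← dn w hd]
        apply hφ _ _ hk hd
        have := crs_pt (J.1 - 1) w
        rw [sub_add_cancel] at this
        exact Crs_symm this
      · exfalso
        apply hw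
        obtain ⟨z, hz⟩ := exists_has J
        have c1 : Crs J (tw (J.1 + 1) w) := by
          by_contra hc
          apply hu
          refine ⟨?_, hc⟩
          intro h
          have : J.1 + 1 = J.1 := congrArg Sigma.fst h
          apply zc (n := n) 1 (by norm_num) (by omega)
          push_cast
          linear_combination this
        have c2 : Crs J (tw (J.1 - 1) w) := by
          by_contra hc
          apply hd
          refine ⟨?_, hc⟩
          intro h
          have : J.1 - 1 = J.1 := congrArg Sigma.fst h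
          apply zc (n := n) 1 (by norm_num) (by omega)
          push_cast
          linear_combination -this
        obtain ⟨-, v1, hv1, hv1'⟩ := c1
        obtain ⟨-, v2, hv2, hv2'⟩ := c2
        have a1 : z⁻¹ * v1 ∈ St J.1 := ((W.tw_eq J.1 J.1 z v1).1 (hz.trans hv1.symm)).2
        have a2 : z⁻¹ * v2 ∈ St J.1 := ((W.tw_eq J.1 J.1 z v2).1 (hz.trans hv2.symm)).2
        have b1 : v1⁻¹ * w ∈ St (J.1 + 1) := ((W.tw_eq _ _ v1 w).1 hv1').2
        have b2 : v2⁻¹ * w ∈ St (J.1 - 1) := ((W.tw_eq _ _ v2 w).1 hv2').2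
        have := W.lemA J.1 (z⁻¹ * w) ⟨_, a1, _, b1, by group⟩ ⟨_, a2, _, b2, by group⟩
        have h3 : tw J.1 z = tw J.1 w := (W.tw_eq _ _ _ _).2 ⟨rfl, this⟩
        exact h3.symm.trans hz
  · by_cases h2 : k = J.1 + 1
    · subst h2; exact up w hk
    · by_cases h3 : k = J.1 - 1
      · subst h3; exact dn w hk
      · obtain ⟨t, ht, rfl⟩ := far_exists J k h1 h2 h3
        exact far_const J φ hφ w t ht

include W hn hφ in
/-- (b) the base value does not change under a step not crossing `J` -/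
theorem step_const (w : CP n F) (j : ZMod n) (s : F) (h : ¬ (j = J.1 ∧ J.has w)) :
    φ (tw (J.1 + 2) (w * ι j s)) = φ (tw (J.1 + 2) w) := by
  have key : ∀ k : ZMod n, (j = k ∨ j = k - 1 ∨ j = k + 1) → Av J (tw k w) →
      φ (tw (J.1 + 2) (w * ι j s)) = φ (tw (J.1 + 2) w) := by
    intro k hk hA
    have e := tw_step W k j hk w s
    rw [← pt_const W hn J φ hφ w k hA, ← pt_const W hn J φ hφ (w * ι j s) k (by rw [e]; exact hA),
      e]
  have far : ∀ k : ZMod n, k ≠ J.1 → k ≠ J.1 + 1 → k ≠ J.1 - 1 → Av J (tw k w) := by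
    intro k h1 h2 h3
    obtain ⟨t, ht, rfl⟩ := far_exists J k h1 h2 h3
    exact Av_far J w t ht
  by_cases h1 : j = J.1
  · have hw : ¬ J.has w := fun h2 => h ⟨h1, h2⟩
    refine key J.1 (Or.inl h1) (Av_of_same W rfl hw)
  · by_cases h2 : j = J.1 + 1
    · refine key (J.1 + 2) (Or.inr (Or.inl (by rw [h2]; ring))) (far _ ?_ ?_ ?_)
      · intro e
        apply zc (n := n) 2 (by norm_num) (by omega)
        push_cast
        linear_combination e
      · intro e
        apply zc (n := n) 1 (by norm_num) (by omega)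
        push_cast
        linear_combination e
      · intro e
        apply zc (n := n) 3 (by norm_num) (by omega)
        push_cast
        linear_combination e
    · by_cases h3 : j = J.1 - 1
      · refine key (J.1 - 2) (Or.inr (Or.inr (by rw [h3]; ring))) (far _ ?_ ?_ ?_)
        · intro e
          apply zc (n := n) 2 (by norm_num) (by omega)
          push_cast
          linear_combination -e
        · intro e
          apply zc (n := n) 3 (by norm_num) (by omega)
          push_cast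
          linear_combination -e
        · intro e
          apply zc (n := n) 1 (by norm_num) (by omega)
          push_cast
          linear_combination -e
      · exact key j (Or.inl rfl) (far _ h1 h2 h3)

include W hn hφ in
theorem Lam_const (u : CP n F) (hu : u ∈ Lam J.1) (w : CP n F) :
    φ (tw (J.1 + 2) (w * u)) = φ (tw (J.1 + 2) w) := by
  have hle : (Lam J.1 : Subgroup (CP n F)) ≤
      { carrier := {u | ∀ w : CP n F, φ (tw (J.1 + 2) (w * u)) = φ (tw (J.1 + 2) w)}
        one_mem' := by intro w; rw [mul_one]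
        mul_mem' := by
          intro a b ha hb w
          rw [← mul_assoc, hb, ha]
        inv_mem' := by
          intro a ha w
          have := ha (w * a⁻¹)
          rw [inv_mul_cancel_right] at this
          exact this.symm } := by
    unfold Lam
    apply sup_le
    · rintro _ ⟨s, rfl⟩ w
      apply step_const W hn J φ hφ
      rintro ⟨h, -⟩
      apply zc (n := n) 1 (by norm_num) (by omega)
      push_cast
      linear_combination -h
    · rintro _ ⟨s, rfl⟩ w
      apply step_const W hn J φ hφ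
      rintro ⟨h, -⟩
      apply zc (n := n) 1 (by norm_num) (by omega)
      push_cast
      linear_combination h
  exact hle hu w

include W hn in
theorem pi_Lam (u : CP n F) (hu : u ∈ Lam J.1) (w : CP n F) :
    J.pi P (w * u) = J.pi P w := by
  have hle : (Lam J.1 : Subgroup (CP n F)) ≤
      { carrier := {u | ∀ w : CP n F, J.pi P (w * u) = J.pi P w}
        one_mem' := by intro w; rw [mul_one]
        mul_mem' := by
          intro a b ha hb w
          rw [← mul_assoc, hb, ha]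
        inv_mem' := by
          intro a ha w
          have := ha (w * a⁻¹)
          rw [inv_mul_cancel_right] at this
          exact this.symm } := by
    unfold Lam
    apply sup_le
    · rintro _ ⟨s, rfl⟩ w
      by_contra hcon
      have h := (W.pi_step J w _ s hcon).1
      apply zc (n := n) 1 (by norm_num) (by omega)
      push_cast
      linear_combination -h
    · rintro _ ⟨s, rfl⟩ w
      by_contra hcon
      have h := (W.pi_step J w _ s hcon).1
      apply zc (n := n) 1 (by norm_num) (by omega)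
      push_cast
      linear_combination h
  exact hle hu w

include W hn hφ in
/-- sector connectivity -/
theorem sector (z : CP n F) (hz : J.has z) (K : TW n F) (hK : Av J K) (w : CP n F)
    (hw : K.has w) (hv : J.pi P w = J.pi P z) : φ K = φ (tw (J.1 + 2) z) := by
  have main : ∀ v : CP n F, J.pi P (z * v) = J.pi P z →
      φ (tw (J.1 + 2) (z * v)) = φ (tw (J.1 + 2) z) := by
    intro v
    induction v using CP.induction_right with
    | h1 => intro _; rw [mul_one]
    | hs v j s ih =>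
      intro h
      by_cases hc : j = J.1 ∧ J.has (z * v)
      · obtain ⟨rfl, hzv⟩ := hc
        have a1 : z⁻¹ * (z * v) ∈ St J.1 :=
          ((W.tw_eq J.1 J.1 z (z * v)).1 (hz.trans hzv.symm)).2
        rw [inv_mul_cancel_left] at a1
        have a2 : v * ι J.1 s ∈ St J.1 :=
          (St J.1).mul_mem a1 (ι_mem_St J.1 J.1 (Or.inl rfl) s)
        obtain ⟨h', u, hu, he⟩ := (W.St_mem _ _).1 a2
        rw [he, ← mul_assoc] at h ⊢
        rw [pi_Lam W hn J u hu, W.pi_in J z h' hz] at h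
        have : h' = 1 := by simpa using h
        rw [Lam_const W hn J φ hφ u hu, this, map_one, mul_one]
      · rw [← mul_assoc] at h ⊢
        rw [step_const W hn J φ hφ _ _ _ hc]
        apply ih
        rw [← h]
        by_contra hcon
        exact hc (W.pi_step J (z * v) j s (Ne.symm hcon))
  have hKw : K = tw K.1 w := hw.symm
  have h1 := pt_const W hn J φ hφ w K.1 (by rw [← hKw]; exact hK)
  rw [← hKw] at h1
  rw [h1]
  have h2 := main (z⁻¹ * w) (by rw [mul_inv_cancel_left]; exact hv)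
  rwa [mul_inv_cancel_left] at h2

end sector

/-- the value of `π_J` on `K` -/
noncomputable def val (P : GP n F ℓ) (J K : TW n F) : F := J.pi P (exists_has K).choose

theorem val_eq {P : GP n F ℓ} (W : Walls P) {J K : TW n F} (h : Av J K) {w : CP n F}
    (hw : K.has w) : val P J K = J.pi P w :=
  W.pi_const J K _ _ h.1.symm h.2 (exists_has K).choose_spec hw

omit [NeZero n] in
theorem Av_map {F₂ : Type} [Group F₂] {Φ : TW n F → TW n F₂} {Ψ : TW n F₂ → TW n F}
    (h1 : ∀ J, Ψ (Φ J) = J) (h2 : ∀ J K, Crs J K → Crs (Ψ J) (Ψ K)) {J K : TW n F}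
    (h : Av J K) : Av (Φ J) (Φ K) := by
  refine ⟨fun e => h.1 ?_, fun e => h.2 ?_⟩
  · rw [← h1 K, ← h1 J, e]
  · have := h2 _ _ e
    rwa [h1, h1] at this

/-- the standard tree-wall of value `h` with respect to `J` (based at `z ∈ J`) -/
noncomputable def KK (P : GP n F ℓ) (J : TW n F) (z : CP n F) (h : F) : TW n F :=
  tw (J.1 + 2) (z * ι J.1 ((J.pi P z)⁻¹ * h))

theorem KK_Av (hn : 5 ≤ n) (P : GP n F ℓ) (J : TW n F) (z : CP n F) (h : F) :
    Av J (KK P J z h) := by
  have := Av_far J (z * ι J.1 ((J.pi P z)⁻¹ * h)) 0 (by omega)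
  rw [Nat.cast_zero, add_zero] at this
  exact this

theorem KK_val {P : GP n F ℓ} (W : Walls P) (hn : 5 ≤ n) (J : TW n F) (z : CP n F) (hz : J.has z)
    (h : F) : val P J (KK P J z h) = h := by
  rw [val_eq W (KK_Av hn P J z h) (w := z * ι J.1 ((J.pi P z)⁻¹ * h)) rfl, W.pi_in J z _ hz,
    mul_inv_cancel_left]

theorem sector_KK {P : GP n F ℓ} (W : Walls P) (hn : 5 ≤ n) (J : TW n F) {α : Type*}
    (φ : TW n F → α) (hφ : ∀ A B, Av J A → Av J B → Crs A B → φ A = φ B) (z : CP n F)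
    (hz : J.has z) (K : TW n F) (hK : Av J K) : φ K = φ (KK P J z (val P J K)) := by
  obtain ⟨w, hw⟩ := exists_has K
  have hz' : J.has (z * ι J.1 ((J.pi P z)⁻¹ * val P J K)) := by
    have := tw_step W J.1 J.1 (Or.inl rfl) z ((J.pi P z)⁻¹ * val P J K)
    exact this.trans hz
  have e : J.pi P (z * ι J.1 ((J.pi P z)⁻¹ * val P J K)) = val P J K := by
    rw [W.pi_in J z _ hz, mul_inv_cancel_left]
  exact sector W hn J φ hφ _ hz' K hK w hw (by rw [e, val_eq W hK hw])

/-- the induced map of vertex groups -/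
noncomputable def bet {F₂ : Type} [Group F₂] {ℓ₂ : F₂ → ℕ} (P : GP n F ℓ) (P₂ : GP n F₂ ℓ₂)
    (Φ : TW n F → TW n F₂) (J : TW n F) (z : CP n F) (q : F) : F₂ :=
  val P₂ (Φ J) (Φ (KK P J z q))

theorem bet_inv {F₂ : Type} [Group F₂] {ℓ₂ : F₂ → ℕ} (hn : 5 ≤ n) {P : GP n F ℓ} (W : Walls P)
    {P₂ : GP n F₂ ℓ₂} (W₂ : Walls P₂) {Φ : TW n F → TW n F₂} {Ψ : TW n F₂ → TW n F}
    (h1 : ∀ J, Ψ (Φ J) = J) (h2 : ∀ J K, Crs J K → Crs (Ψ J) (Ψ K))
    (h3 : ∀ J, Φ (Ψ J) = J) (h4 : ∀ J K, Crs J K → Crs (Φ J) (Φ K)) (J : TW n F) (z : CP n F)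
    (hz : J.has z) (z' : CP n F₂) (hz' : (Φ J).has z') (q : F) :
    bet P₂ P Ψ (Φ J) z' (bet P P₂ Φ J z q) = q := by
  unfold bet
  have hA := KK_Av hn P J z q
  have hA' := Av_map h1 h2 hA
  have h := sector_KK W₂ hn (Φ J) (fun A => val P J (Ψ A)) ?_ z' hz' (Φ (KK P J z q)) hA'
  · simp only [h1] at h ⊢
    rw [← h, KK_val W hn J z hz]
  · intro A B hA hB hc
    have e1 : Av J (Ψ A) := by
      have := Av_map h3 h4 hA
      rwa [h1] at this
    have e2 : Av J (Ψ B) := by
      have := Av_map h3 h4 hB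
      rwa [h1] at this
    obtain ⟨-, w, hw1, hw2⟩ := h2 _ _ hc
    show val P J (Ψ A) = val P J (Ψ B)
    rw [val_eq W e1 hw1, val_eq W e2 hw2]

theorem bet_lip {F₂ : Type} [Group F₂] {ℓ₂ : F₂ → ℕ} (hn : 5 ≤ n) (hℓ : IsNorm ℓ)
    (hℓ₂ : IsNorm ℓ₂) {P : GP n F ℓ}
    (W : Walls P) {P₂ : GP n F₂ ℓ₂} (W₂ : Walls P₂) {Φ : TW n F → TW n F₂}
    {Ψ : TW n F₂ → TW n F} {K C : ℕ} {f : CP n F → CP n F₂} (T : TreeMap ℓ₂ C f Φ Ψ)
    (h2 : ∀ J K, Crs J K → Crs (Ψ J) (Ψ K))
    (hf : ∀ x y, nd (gN ℓ₂) (f x) (f y) ≤ K * nd (gN ℓ) x y + K)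
    (J : TW n F) (z : CP n F) (q q' : F) :
    nd ℓ₂ (bet P P₂ Φ J z q) (bet P P₂ Φ J z q') ≤ (2 * C + 2 * K) * nd ℓ q q' := by
  by_cases hq : q = q'
  · rw [hq, nd_self hℓ₂]; exact Nat.zero_le _
  · have hpos : 1 ≤ nd ℓ q q' := by
      rw [Nat.one_le_iff_ne_zero]
      intro h
      exact hq ((nd_eq_zero hℓ).1 h)
    let x := fun q : F => z * ι J.1 ((J.pi P z)⁻¹ * q)
    have hx : ∀ q, nd ℓ₂ ((Φ J).pi P₂ (f (x q))) (bet P P₂ Φ J z q) ≤ C := by
      intro q
      obtain ⟨e, he, hd⟩ := T.near (KK P J z q) (x q) rfl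
      have hA := Av_map T.inv h2 (KK_Av hn P J z q)
      unfold bet
      rw [val_eq W₂ hA he]
      exact ((W₂.pi_lip _ _ _).trans (W₂.m_le_gN _ _)).trans hd
    have e1 := hx q
    have e2 := hx q'
    have e3 := nd_tri hℓ₂ (bet P P₂ Φ J z q) ((Φ J).pi P₂ (f (x q))) (bet P P₂ Φ J z q')
    have e4 := nd_tri hℓ₂ ((Φ J).pi P₂ (f (x q))) ((Φ J).pi P₂ (f (x q'))) (bet P P₂ Φ J z q')
    rw [nd_symm hℓ₂ (bet P P₂ Φ J z q) ((Φ J).pi P₂ (f (x q)))] at e3
    have e5 : nd ℓ₂ ((Φ J).pi P₂ (f (x q))) ((Φ J).pi P₂ (f (x q'))) ≤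
        nd (gN ℓ₂) (f (x q)) (f (x q')) := (W₂.pi_lip _ _ _).trans (W₂.m_le_gN _ _)
    have e6 := hf (x q) (x q')
    have e7 : nd (gN ℓ) (x q) (x q') = nd ℓ q q' := by
      show nd (gN ℓ) (z * _) (z * _) = _
      rw [nd_left]
      have : nd (gN ℓ) (ι J.1 ((J.pi P z)⁻¹ * q) : CP n F) (ι J.1 ((J.pi P z)⁻¹ * q')) =
          nd ℓ ((J.pi P z)⁻¹ * q) ((J.pi P z)⁻¹ * q') := by
        unfold nd
        rw [← map_inv, ← map_mul, W.gN_ι]
      rw [this, nd_left]
    rw [e7] at e6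
    have e8 : (2 * C + K) * 1 ≤ (2 * C + K) * nd ℓ q q' := Nat.mul_le_mul_left _ hpos
    have e9 : (2 * C + 2 * K) * nd ℓ q q' = (2 * C + K) * nd ℓ q q' + K * nd ℓ q q' := by ring
    omega

end GT

theorem mod_GTREE : S_RFL → S_WALLS → S_GTREE := by
  intro hRFL hW n _ hn F₁ F₂ _ _ ℓ₁ ℓ₂ h₁ h₂ hu₁ hu₂ P₁ P₂ K C f g hq hf hg
  have W₁ := hW n hn F₁ ℓ₁ h₁ P₁
  have W₂ := hW n hn F₂ ℓ₂ h₂ P₂
  have R₁ : GT.RFL ℓ₁ n := hRFL n hn F₁ ℓ₁ h₁ hu₁ P₁ W₁
  have R₂ : GT.RFL ℓ₂ n := hRFL n hn F₂ ℓ₂ h₂ hu₂ P₂ W₂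
  obtain ⟨Φ, Ψ, T, T'⟩ := GT.GTa_main hn h₁ h₂ W₁ R₁ W₂ R₂ hu₁ hu₂ hq hf hg
  let J : TW n F₁ := tw 0 1
  have hz : J.has 1 := rfl
  obtain ⟨z', hz'⟩ := GT.exists_has (Φ J)
  have hz2 : (Ψ (Φ J)).has 1 := by rw [T.inv]; exact hz
  refine ⟨⟨GT.bet P₁ P₂ Φ J 1, GT.bet P₂ P₁ Ψ (Φ J) z', ?_, ?_⟩, 2 * C + 2 * K, ?_⟩
  · intro q
    exact GT.bet_inv hn W₁ W₂ T.inv T'.crs T'.inv T.crs J 1 hz z' hz' q
  · intro q
    have := GT.bet_inv hn W₂ W₁ T'.inv T.crs T.inv T'.crs (Φ J) z' hz' 1 hz2 q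
    rw [T.inv] at this
    exact this
  · intro x y
    refine ⟨GT.bet_lip hn h₁ h₂ W₁ W₂ T T'.crs hq.f_le J 1 x y, ?_⟩
    have := GT.bet_lip hn h₂ h₁ W₂ W₁ T' T.crs hq.g_le (Φ J) z'
      (GT.bet P₁ P₂ Φ J 1 x) (GT.bet P₁ P₂ Φ J 1 y)
    rw [GT.bet_inv hn W₁ W₂ T.inv T'.crs T'.inv T.crs J 1 hz z' hz' x,
      GT.bet_inv hn W₁ W₂ T.inv T'.crs T'.inv T.crs J 1 hz z' hz' y] at this
    exact this

end CQ
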