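import Pool.Agent.Helper28.CQ.StmtsF

set_option autoImplicit false

/-!
# GTa: a quasi-isometry mapping flats near flats induces a bijection of tree-walls
-/

namespace CQ

namespace GT

section basics

theorem nd_symm {G : Type*} [Group G] {ℓ : G → ℕ} (h : IsNorm ℓ) (x y : G) :
    nd ℓ x y = nd ℓ y x := by
  unfold nd
  rw [← h.inv]
  simp

theorem nd_tri {G : Type*} [Group G] {ℓ : G → ℕ} (h : IsNorm ℓ) (x y z : G) :
    nd ℓ x z ≤ nd ℓ x y + nd ℓ y z := by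
  unfold nd
  have := h.mul_le (x⁻¹ * y) (y⁻¹ * z)
  simpa [mul_assoc] using this

theorem nd_self {G : Type*} [Group G] {ℓ : G → ℕ} (h : IsNorm ℓ) (x : G) :
    nd ℓ x x = 0 := by
  unfold nd
  rw [h.eq_zero]
  simp

theorem nd_left {G : Type*} [Group G] {ℓ : G → ℕ} (g x y : G) :
    nd ℓ (g * x) (g * y) = nd ℓ x y := by
  unfold nd
  congr 1
  group

theorem nd_eq_zero {G : Type*} [Group G] {ℓ : G → ℕ} (h : IsNorm ℓ) {x y : G} :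
    nd ℓ x y = 0 ↔ x = y := by
  unfold nd
  rw [h.eq_zero, inv_mul_eq_one]

theorem zc {n : ℕ} [NeZero n] (c : ℕ) (h1 : 0 < c) (h2 : c < n) : ((c : ℕ) : ZMod n) ≠ 0 := by
  intro h
  rw [ZMod.natCast_eq_zero_iff] at h
  exact absurd (Nat.le_of_dvd h1 h) (by omega)

end basics

variable {n : ℕ} [NeZero n] {F : Type} [Group F] {ℓ : F → ℕ}

omit [NeZero n] in
theorem exists_has (J : TW n F) : ∃ w, J.has w := by
  obtain ⟨i, c⟩ := J
  induction c using QuotientGroup.induction_on with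
  | H w => exact ⟨w, rfl⟩

omit [NeZero n] in
theorem Crs_symm {J K : TW n F} (h : Crs J K) : Crs K J := by
  obtain ⟨h1, w, h2, h3⟩ := h
  exact ⟨h1.symm, w, h3, h2⟩

/-- `J` is one of the two tree-walls of the flat `A` -/
def Mem (J : TW n F) (A : Set (CP n F)) : Prop :=
  ∃ y i, A = FL y i ∧ (J = tw i y ∨ J = tw (i + 1) y)

/-- `A` is a flat -/
def IsFl (A : Set (CP n F)) : Prop := ∃ y i, A = FL y i

/-- specialised rigidity of flats -/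
def RFL (ℓ : F → ℕ) (n : ℕ) : Prop :=
  ∀ (C : ℕ) (y y' : CP n F) (i i' : ZMod n), Nb (nd (gN ℓ)) C (FL y i) (FL y' i') →
    i = i' ∧ y⁻¹ * y' ∈ Fl i ∧ FL y i = FL y' i'

theorem mem_FL {P : GP n F ℓ} (W : Walls P) (y w : CP n F) (i : ZMod n) :
    w ∈ FL y i ↔ y⁻¹ * w ∈ Fl i := by
  rw [W.Fl_mem]
  constructor
  · rintro ⟨a, b, rfl⟩
    exact ⟨a, b, by group⟩
  · rintro ⟨a, b, h⟩
    refine ⟨a, b, ?_⟩
    rw [mul_assoc, ← h]
    group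

theorem FL_congr {P : GP n F ℓ} (W : Walls P) (y y' : CP n F) (i : ZMod n)
    (h : y⁻¹ * y' ∈ Fl i) : FL y i = FL y' i := by
  ext w
  rw [mem_FL W, mem_FL W]
  constructor
  · intro hw
    have := (Fl i).mul_mem ((Fl i).inv_mem h) hw
    simpa [mul_assoc] using this
  · intro hw
    have := (Fl i).mul_mem h hw
    simpa [mul_assoc] using this

theorem FL_inj {P : GP n F ℓ} (W : Walls P) (R : RFL ℓ n) (y y' : CP n F) (i i' : ZMod n)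
    (h : FL y i = FL y' i') : i = i' ∧ y⁻¹ * y' ∈ Fl i := by
  have := R 0 y y' i i' (by
    intro a ha
    exact ⟨a, h ▸ ha, by rw [nd_self W.norm]⟩)
  exact ⟨this.1, this.2.1⟩

theorem Mem_FL {P : GP n F ℓ} (W : Walls P) (R : RFL ℓ n) (J : TW n F) (y : CP n F) (i : ZMod n) :
    Mem J (FL y i) ↔ J = tw i y ∨ J = tw (i + 1) y := by
  constructor
  · rintro ⟨y', i', h, hJ⟩
    obtain ⟨rfl, h2⟩ := FL_inj W R _ _ _ _ h
    rw [← W.Fl_eq] at h2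
    have e1 : tw i y = tw i y' := (W.tw_eq _ _ _ _).2 ⟨rfl, h2.1⟩
    have e2 : tw (i + 1) y = tw (i + 1) y' := (W.tw_eq _ _ _ _).2 ⟨rfl, h2.2⟩
    rwa [e1, e2]
  · intro h
    exact ⟨y, i, rfl, h⟩

omit [NeZero n] in
theorem Mem.isFl {J : TW n F} {A : Set (CP n F)} (h : Mem J A) : IsFl A := by
  obtain ⟨y, i, h, _⟩ := h
  exact ⟨y, i, h⟩

theorem two_ne (hn : 5 ≤ n) {i i' : ZMod n} (h1 : i = i' + 1) (h2 : i + 1 = i') : False := by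
  apply zc (n := n) 2 (by norm_num) (by omega)
  push_cast
  linear_combination h2 - h1

/-- distinct flats share at most one tree-wall -/
theorem share_unique {P : GP n F ℓ} (W : Walls P) (hn : 5 ≤ n) {J K : TW n F}
    {A B : Set (CP n F)} (h1 : Mem J A) (h2 : Mem K A) (h3 : Mem J B) (h4 : Mem K B)
    (R : RFL ℓ n) (hJK : J ≠ K) : A = B := by
  obtain ⟨y, i, rfl⟩ := h1.isFl
  obtain ⟨y', i', rfl⟩ := h3.isFl
  rw [Mem_FL W R] at h1 h2 h3 h4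
  have key : tw i y = tw i' y' → tw (i + 1) y = tw (i' + 1) y' → FL y i = FL y' i' := by
    intro e1 e2
    rw [W.tw_eq] at e1 e2
    obtain ⟨rfl, e1⟩ := e1
    obtain ⟨-, e2⟩ := e2
    exact FL_congr W _ _ _ ((W.Fl_eq _ _).1 ⟨e1, e2⟩)
  have key2 : tw i y = tw (i' + 1) y' → tw (i + 1) y = tw i' y' → FL y i = FL y' i' := by
    intro e1 e2
    rw [W.tw_eq] at e1 e2
    exact (two_ne hn e1.1 e2.1).elim
  rcases h1 with h1 | h1
  · have h2 := h2.resolve_left (fun h => hJK (h1.trans h.symm))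
    rcases h3 with h3 | h3
    · have h4 := h4.resolve_left (fun h => hJK (h3.trans h.symm))
      exact key (h1.symm.trans h3) (h2.symm.trans h4)
    · have h4 := h4.resolve_right (fun h => hJK (h3.trans h.symm))
      exact key2 (h1.symm.trans h3) (h2.symm.trans h4)
  · have h2 := h2.resolve_right (fun h => hJK (h1.trans h.symm))
    rcases h3 with h3 | h3
    · have h4 := h4.resolve_left (fun h => hJK (h3.trans h.symm))
      exact key2 (h2.symm.trans h4) (h1.symm.trans h3)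
    · have h4 := h4.resolve_right (fun h => hJK (h3.trans h.symm))
      exact key (h2.symm.trans h4) (h1.symm.trans h3)

omit [NeZero n] in
theorem crs_succ (i : ZMod n) (y : CP n F) : Crs (tw i y) (tw (i + 1) y) :=
  ⟨Or.inr rfl, y, rfl, rfl⟩

theorem Mem_crs {P : GP n F ℓ} (W : Walls P) (R : RFL ℓ n) {J K : TW n F}
    {A : Set (CP n F)} (h1 : Mem J A) (h2 : Mem K A) (hJK : J ≠ K) : Crs J K := by
  obtain ⟨y, i, rfl⟩ := h1.isFl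
  rw [Mem_FL W R] at h1 h2
  rcases h1 with rfl | rfl
  · have h2 := h2.resolve_left (fun h => hJK h.symm)
    rw [h2]; exact crs_succ i y
  · have h2 := h2.resolve_right (fun h => hJK h.symm)
    rw [h2]; exact Crs_symm (crs_succ i y)

theorem crs_Mem {P : GP n F ℓ} (W : Walls P) {J K : TW n F} (h : Crs J K) :
    J ≠ K ∧ ∃ A, Mem J A ∧ Mem K A := by
  refine ⟨fun e => W.crs_ne J K h (by rw [e]), ?_⟩
  obtain ⟨i, y, h⟩ := W.crs_flat J K h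
  refine ⟨FL y i, ?_⟩
  rcases h with ⟨h1, h2⟩ | ⟨h1, h2⟩
  · exact ⟨⟨y, i, rfl, Or.inl h1⟩, ⟨y, i, rfl, Or.inr h2⟩⟩
  · exact ⟨⟨y, i, rfl, Or.inr h2⟩, ⟨y, i, rfl, Or.inl h1⟩⟩

/-- two distinct flats through a tree-wall -/
theorem two_flats {P : GP n F ℓ} (W : Walls P) (hn : 5 ≤ n) (R : RFL ℓ n) (J : TW n F) :
    ∃ A B, Mem J A ∧ Mem J B ∧ A ≠ B := by
  obtain ⟨y, hy⟩ := exists_has J
  refine ⟨FL y J.1, FL y (J.1 - 1), ⟨y, J.1, rfl, Or.inl hy.symm⟩,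
    ⟨y, J.1 - 1, rfl, Or.inr (by rw [sub_add_cancel]; exact hy.symm)⟩, ?_⟩
  intro h
  have := (FL_inj W R _ _ _ _ h).1
  apply zc (n := n) 1 (by norm_num) (by omega)
  push_cast
  linear_combination this

omit [NeZero n] in
/-- a flat through a point of a tree-wall -/
theorem flat_through (J : TW n F) (w : CP n F) (h : J.has w) :
    Mem J (FL w J.1) ∧ w ∈ FL w J.1 :=
  ⟨⟨w, J.1, rfl, Or.inl h.symm⟩, ⟨1, 1, by simp⟩⟩

theorem has_of_Mem {P : GP n F ℓ} (W : Walls P) {J : TW n F} {A : Set (CP n F)} (h : Mem J A)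
    {w : CP n F} (hw : w ∈ A) : J.has w := by
  obtain ⟨y, i, rfl, hJ⟩ := h
  rw [mem_FL W, ← W.Fl_eq] at hw
  rcases hJ with rfl | rfl
  · exact ((W.tw_eq _ _ _ _).2 ⟨rfl, hw.1⟩).symm
  · exact ((W.tw_eq _ _ _ _).2 ⟨rfl, hw.2⟩).symm

/-- three pairwise meeting flats -/
theorem meet3 {P : GP n F ℓ} (W : Walls P) (hn : 5 ≤ n) (R : RFL ℓ n) {J : TW n F}
    {A B C : Set (CP n F)} (hA : Mem J A) (hB : Mem J B) (hAB : A ≠ B)
    (h1 : ∃ K, Mem K C ∧ Mem K A) (h2 : ∃ K, Mem K C ∧ Mem K B) : Mem J C := by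
  obtain ⟨K, hKC, hKA⟩ := h1
  obtain ⟨K', hKC', hKB'⟩ := h2
  by_contra hJ
  have e1 : K ≠ J := by rintro rfl; exact hJ hKC
  have e2 : K' ≠ J := by rintro rfl; exact hJ hKC'
  have e3 : K ≠ K' := by
    rintro rfl
    exact hAB (share_unique W hn hA hKA hB hKB' R e1.symm)
  exact W.no_triangle K J K' (Mem_crs W R hKA hA e1) (Mem_crs W R hB hKB' e2.symm)
    (Mem_crs W R hKC hKC' e3)

/-- unbounded coarse intersection -/
def Share {X : Type*} (d : X → X → ℕ) (A B : Set X) : Prop :=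
  ∃ r, ∀ R, ∃ p q, (∃ a ∈ A, d p a ≤ r) ∧ (∃ b ∈ B, d p b ≤ r) ∧
    (∃ a ∈ A, d q a ≤ r) ∧ (∃ b ∈ B, d q b ≤ r) ∧ R < d p q

omit [NeZero n] in
/-- a line in a flat through a tree-wall -/
theorem line_in {J : TW n F} {A : Set (CP n F)} (h : Mem J A) :
    ∃ y, J.has y ∧ ∀ s, y * ι J.1 s ∈ A := by
  obtain ⟨y, i, rfl, hJ⟩ := h
  refine ⟨y, ?_, ?_⟩
  · rcases hJ with rfl | rfl <;> rfl
  · intro s
    rcases hJ with rfl | rfl
    · exact ⟨s, 1, by simp [tw]⟩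
    · exact ⟨1, s, by simp [tw]⟩

theorem share_of_common {P : GP n F ℓ} (W : Walls P) (hu : ∀ r : ℕ, ∃ a, r < ℓ a)
    {J : TW n F} {A B : Set (CP n F)} (hA : Mem J A) (hB : Mem J B) :
    Share (nd (gN ℓ)) A B := by
  obtain ⟨y, hy, hyA⟩ := line_in hA
  obtain ⟨z, hz, hzB⟩ := line_in hB
  have h1 : tw J.1 y = tw J.1 z := hy.trans hz.symm
  obtain ⟨-, h2⟩ := (W.tw_eq _ _ _ _).1 h1
  obtain ⟨h, u, hu', he⟩ := (W.St_mem _ _).1 h2
  have key : ∀ s, ∃ b ∈ B, nd (gN ℓ) (y * ι J.1 s) b ≤ gN ℓ u := by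
    intro s
    refine ⟨z * ι J.1 (h⁻¹ * s), hzB _, ?_⟩
    have e1 : z = y * (ι J.1 h * u) := by rw [← he]; group
    have e2 : z * ι J.1 (h⁻¹ * s) = y * ι J.1 s * u := by
      have e3 := W.ι_Lam J.1 (h⁻¹ * s) u hu'
      rw [e1, mul_assoc, mul_assoc, ← e3, ← mul_assoc (ι J.1 h), ← map_mul, ← mul_assoc y,
        mul_inv_cancel_left]
    rw [e2]
    unfold nd
    rw [inv_mul_cancel_left]
  refine ⟨gN ℓ u, ?_⟩
  intro R
  obtain ⟨s, hs⟩ := hu R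
  refine ⟨y * ι J.1 1, y * ι J.1 s, ⟨_, hyA 1, ?_⟩, key 1, ⟨_, hyA s, ?_⟩, key s, ?_⟩
  · rw [nd_self W.norm]; exact Nat.zero_le _
  · rw [nd_self W.norm]; exact Nat.zero_le _
  · rw [nd_left]
    unfold nd
    rw [map_one, inv_one, one_mul, W.gN_ι]
    exact hs

theorem pi_first {P : GP n F ℓ} (W : Walls P) (hn : 5 ≤ n) (i : ZMod n) (y : CP n F) (a b : F) :
    (tw i y).pi P (y * ι i a * ι (i + 1) b) = (tw i y).pi P y * a := by
  have h1 : (tw i y).pi P (y * ι i a * ι (i + 1) b) = (tw i y).pi P (y * ι i a) := by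
    by_contra hcon
    have := (W.pi_step (tw i y) (y * ι i a) (i + 1) b hcon).1
    change i + 1 = i at this
    apply zc (n := n) 1 (by norm_num) (by omega)
    push_cast
    linear_combination this
  rw [h1]
  exact W.pi_in (tw i y) y a rfl

theorem pi_second {P : GP n F ℓ} (W : Walls P) (hn : 5 ≤ n) (i : ZMod n) (y : CP n F) (a b : F) :
    (tw (i + 1) y).pi P (y * ι i a * ι (i + 1) b) = (tw (i + 1) y).pi P y * b := by
  rw [mul_assoc, ι_comm, ← mul_assoc]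
  have h1 : (tw (i + 1) y).pi P (y * ι (i + 1) b * ι i a) =
      (tw (i + 1) y).pi P (y * ι (i + 1) b) := by
    by_contra hcon
    have := (W.pi_step (tw (i + 1) y) (y * ι (i + 1) b) i a hcon).1
    change i = i + 1 at this
    apply zc (n := n) 1 (by norm_num) (by omega)
    push_cast
    linear_combination -this
  rw [h1]
  exact W.pi_in (tw (i + 1) y) y b rfl

theorem nd_flat {P : GP n F ℓ} (W : Walls P) (i : ZMod n) (y : CP n F) (a b a' b' : F) :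
    nd (gN ℓ) (y * ι i a * ι (i + 1) b) (y * ι i a' * ι (i + 1) b') ≤
      nd ℓ a a' + nd ℓ b b' := by
  have e : (y * ι i a * ι (i + 1) b)⁻¹ * (y * ι i a' * ι (i + 1) b') =
      ι i (a⁻¹ * a') * ι (i + 1) (b⁻¹ * b') := by
    have e3 := ι_comm i (a⁻¹ * a') (b⁻¹)
    have : (y * ι i a * ι (i + 1) b)⁻¹ * (y * ι i a' * ι (i + 1) b') =
      (ι (i + 1) b⁻¹ * ι i (a⁻¹ * a')) * ι (i + 1) b' := by
      simp only [map_mul, map_inv]
      group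
    rw [this, ← e3, map_mul (ι (i + 1)) b⁻¹ b', ← mul_assoc]
  unfold nd
  rw [e]
  calc _ ≤ gN ℓ (ι i (a⁻¹ * a')) + gN ℓ (ι (i + 1) (b⁻¹ * b')) := W.norm.mul_le _ _
    _ = _ := by rw [W.gN_ι, W.gN_ι]

theorem common_of_share {P : GP n F ℓ} (W : Walls P) (hn : 5 ≤ n) (hℓ : IsNorm ℓ)
    {A B : Set (CP n F)} (hA : IsFl A) (hB : IsFl B) (h : Share (nd (gN ℓ)) A B) :
    ∃ J, Mem J A ∧ Mem J B := by
  by_contra hcon
  push Not at hcon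
  obtain ⟨y, i, rfl⟩ := hA
  obtain ⟨z, j, rfl⟩ := hB
  obtain ⟨r, hr⟩ := h
  have hno1 : ∀ b ∈ FL z j, (tw i y).pi P b = (tw i y).pi P z := by
    intro b hb
    rw [mem_FL W] at hb
    have := W.pi_flat (tw i y) j z (z⁻¹ * b)
      (fun e => hcon (tw i y) ⟨y, i, rfl, Or.inl rfl⟩ ⟨z, j, rfl, Or.inl e⟩)
      (fun e => hcon (tw i y) ⟨y, i, rfl, Or.inl rfl⟩ ⟨z, j, rfl, Or.inr e⟩) hb
    simpa using this
  have hno2 : ∀ b ∈ FL z j, (tw (i + 1) y).pi P b = (tw (i + 1) y).pi P z := by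
    intro b hb
    rw [mem_FL W] at hb
    have := W.pi_flat (tw (i + 1) y) j z (z⁻¹ * b)
      (fun e => hcon (tw (i + 1) y) ⟨y, i, rfl, Or.inr rfl⟩ ⟨z, j, rfl, Or.inl e⟩)
      (fun e => hcon (tw (i + 1) y) ⟨y, i, rfl, Or.inr rfl⟩ ⟨z, j, rfl, Or.inr e⟩) hb
    simpa using this
  have lip : ∀ (J : TW n F) (a b : CP n F), nd ℓ (J.pi P a) (J.pi P b) ≤ nd (gN ℓ) a b :=
    fun J a b => (W.pi_lip J a b).trans (W.m_le_gN _ _)
  -- the coordinates of a point of `A` near `B`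
  have co : ∀ (p : CP n F) (s t : F), nd (gN ℓ) p (y * ι i s * ι (i + 1) t) ≤ r →
      (∃ b ∈ FL z j, nd (gN ℓ) p b ≤ r) →
      nd ℓ s (((tw i y).pi P y)⁻¹ * (tw i y).pi P z) ≤ 2 * r ∧
      nd ℓ t (((tw (i + 1) y).pi P y)⁻¹ * (tw (i + 1) y).pi P z) ≤ 2 * r := by
    rintro p s t h1 ⟨b, hb, h2⟩
    have h3 : nd (gN ℓ) (y * ι i s * ι (i + 1) t) b ≤ 2 * r := by
      have := nd_tri W.norm (y * ι i s * ι (i + 1) t) p b
      rw [nd_symm W.norm (y * ι i s * ι (i + 1) t) p] at this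
      omega
    have h4 := (lip (tw i y) _ _).trans h3
    have h5 := (lip (tw (i + 1) y) _ _).trans h3
    rw [pi_first W hn, hno1 b hb] at h4
    rw [pi_second W hn, hno2 b hb] at h5
    constructor
    · have e := nd_left (ℓ := ℓ) ((tw i y).pi P y) s (((tw i y).pi P y)⁻¹ * (tw i y).pi P z)
      rw [mul_inv_cancel_left] at e
      rw [← e]; exact h4
    · have e := nd_left (ℓ := ℓ) ((tw (i + 1) y).pi P y) t
        (((tw (i + 1) y).pi P y)⁻¹ * (tw (i + 1) y).pi P z)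
      rw [mul_inv_cancel_left] at e
      rw [← e]; exact h5
  obtain ⟨p, q, ⟨a, ha, hpa⟩, hpb, ⟨a', ha', hqa⟩, hqb, hpq⟩ := hr (10 * r)
  obtain ⟨s, t, rfl⟩ := ha
  obtain ⟨s', t', rfl⟩ := ha'
  obtain ⟨h1, h2⟩ := co p s t hpa hpb
  obtain ⟨h3, h4⟩ := co q s' t' hqa hqb
  have h5 := nd_tri hℓ s (((tw i y).pi P y)⁻¹ * (tw i y).pi P z) s'
  have h6 := nd_tri hℓ t (((tw (i + 1) y).pi P y)⁻¹ * (tw (i + 1) y).pi P z) t'
  rw [nd_symm hℓ (((tw i y).pi P y)⁻¹ * (tw i y).pi P z) s'] at h5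
  rw [nd_symm hℓ (((tw (i + 1) y).pi P y)⁻¹ * (tw (i + 1) y).pi P z) t'] at h6
  have h7 := nd_flat W i y s t s' t'
  have h8 := nd_tri W.norm p (y * ι i s * ι (i + 1) t) q
  have h9 := nd_tri W.norm (y * ι i s * ι (i + 1) t) (y * ι i s' * ι (i + 1) t') q
  rw [nd_symm W.norm (y * ι i s' * ι (i + 1) t') q] at h9
  omega

/-- transport of `Share` -/
theorem share_map {X Y : Type*} {dX : X → X → ℕ} {dY : Y → Y → ℕ}
    (sX : ∀ x y, dX x y = dX y x) (tX : ∀ x y z, dX x z ≤ dX x y + dX y z)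
    (tY : ∀ x y z, dY x z ≤ dY x y + dY y z)
    {K C : ℕ} {f : X → Y} {g : Y → X} (hq : QIP dX dY K f g) {A B : Set X} {A' B' : Set Y}
    (hA : Nb dY C (f '' A) A') (hB : Nb dY C (f '' B) B') (h : Share dX A B) :
    Share dY A' B' := by
  obtain ⟨r, hr⟩ := h
  refine ⟨K * r + K + C, ?_⟩
  intro R
  obtain ⟨p, q, h1, h2, h3, h4, h5⟩ := hr (K * R + 3 * K)
  have mv : ∀ (D : Set X) (D' : Set Y), Nb dY C (f '' D) D' → ∀ p, (∃ a ∈ D, dX p a ≤ r) →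
      ∃ a ∈ D', dY (f p) a ≤ K * r + K + C := by
    rintro D D' hD p ⟨a, ha, hpa⟩
    obtain ⟨b, hb, hab⟩ := hD (f a) ⟨a, ha, rfl⟩
    refine ⟨b, hb, ?_⟩
    have e1 := tY (f p) (f a) b
    have e2 := hq.f_le p a
    have e3 : K * dX p a ≤ K * r := Nat.mul_le_mul_left _ hpa
    omega
  refine ⟨f p, f q, mv _ _ hA p h1, mv _ _ hB p h2, mv _ _ hA q h3, mv _ _ hB q h4, ?_⟩
  by_contra hcon
  push Not at hcon
  have e1 := tX p (g (f p)) q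
  have e2 := tX (g (f p)) (g (f q)) q
  have e3 := hq.g_le (f p) (f q)
  have e4 := hq.gf p
  have e5 := hq.gf q
  rw [sX q (g (f q))] at e5
  have e6 : K * dY (f p) (f q) ≤ K * R := Nat.mul_le_mul_left _ hcon
  omega

/-- composition of coarse containments -/
theorem back_forth {X Y : Type*} {dX : X → X → ℕ} {dY : Y → Y → ℕ}
    (tX : ∀ x y z, dX x z ≤ dX x y + dX y z)
    {K C : ℕ} {f : X → Y} {g : Y → X} (hq : QIP dX dY K f g) {A : Set X} {B : Set Y} {A' : Set X}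
    (hA : Nb dY C (f '' A) B) (hB : Nb dX C (g '' B) A') :
    Nb dX (K + (K * C + K) + C) A A' := by
  intro a ha
  obtain ⟨b, hb, hab⟩ := hA (f a) ⟨a, ha, rfl⟩
  obtain ⟨a', ha', hba⟩ := hB (g b) ⟨b, hb, rfl⟩
  refine ⟨a', ha', ?_⟩
  have e1 := tX a (g (f a)) a'
  have e2 := tX (g (f a)) (g b) a'
  have e3 := hq.g_le (f a) b
  have e4 := hq.gf a
  have e5 : K * dY (f a) b ≤ K * C := Nat.mul_le_mul_left _ hab
  omega

theorem qip_swap {X Y : Type*} {dX : X → X → ℕ} {dY : Y → Y → ℕ} {K : ℕ} {f : X → Y} {g : Y → X}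
    (h : QIP dX dY K f g) : QIP dY dX K g f := ⟨h.g_le, h.f_le, h.fg, h.gf⟩

omit [NeZero n] in
/-- choice of the image flat -/
theorem choose_flat {F₂ : Type} [Group F₂] {ℓ₂ : F₂ → ℕ} {C : ℕ} {f : CP n F → CP n F₂}
    (hf : ∀ y i, ∃ y' i', Nb (nd (gN ℓ₂)) C (f '' FL y i) (FL y' i')) :
    ∃ fs : Set (CP n F) → Set (CP n F₂), ∀ A, IsFl A → IsFl (fs A) ∧
      Nb (nd (gN ℓ₂)) C (f '' A) (fs A) := by
  have : ∀ A : Set (CP n F), ∃ B : Set (CP n F₂), IsFl A → IsFl B ∧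
      Nb (nd (gN ℓ₂)) C (f '' A) B := by
    intro A
    by_cases h : IsFl A
    · obtain ⟨y, i, rfl⟩ := h
      obtain ⟨y', i', h'⟩ := hf y i
      exact ⟨FL y' i', fun _ => ⟨⟨y', i', rfl⟩, h'⟩⟩
    · exact ⟨∅, fun h' => absurd h' h⟩
  choose fs hfs using this
  exact ⟨fs, hfs⟩

theorem back_flat {F₂ : Type} [Group F₂] {ℓ₂ : F₂ → ℕ} {P : GP n F ℓ} (W : Walls P)
    (R : RFL ℓ n) {K C : ℕ} {f : CP n F → CP n F₂}
    {g : CP n F₂ → CP n F} (hq : QIP (nd (gN ℓ)) (nd (gN ℓ₂)) K f g)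
    {fs : Set (CP n F) → Set (CP n F₂)} {gs : Set (CP n F₂) → Set (CP n F)}
    (hfs : ∀ A, IsFl A → IsFl (fs A) ∧ Nb (nd (gN ℓ₂)) C (f '' A) (fs A))
    (hgs : ∀ A, IsFl A → IsFl (gs A) ∧ Nb (nd (gN ℓ)) C (g '' A) (gs A)) (A : Set (CP n F))
    (hA : IsFl A) : gs (fs A) = A := by
  obtain ⟨h1, h2⟩ := hfs A hA
  obtain ⟨h3, h4⟩ := hgs _ h1
  have h5 := back_forth (nd_tri W.norm) hq h2 h4
  obtain ⟨y, i, rfl⟩ := hA
  obtain ⟨z, j, hz⟩ := h3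
  rw [hz] at h5
  rw [hz]
  exact (R _ y z i j h5).2.2.symm

theorem exists_phi {F₂ : Type} [Group F₂] {ℓ₂ : F₂ → ℕ} (hn : 5 ≤ n) {P : GP n F ℓ} (W : Walls P)
    (R : RFL ℓ n) {P₂ : GP n F₂ ℓ₂} (W₂ : Walls P₂) (R₂ : RFL ℓ₂ n)
    (hu : ∀ r : ℕ, ∃ a, r < ℓ a) (hℓ₂ : IsNorm ℓ₂)
    {K C : ℕ} {f : CP n F → CP n F₂}
    {g : CP n F₂ → CP n F} (hq : QIP (nd (gN ℓ)) (nd (gN ℓ₂)) K f g)
    {fs : Set (CP n F) → Set (CP n F₂)} {gs : Set (CP n F₂) → Set (CP n F)}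
    (hfs : ∀ A, IsFl A → IsFl (fs A) ∧ Nb (nd (gN ℓ₂)) C (f '' A) (fs A))
    (hgf : ∀ A, IsFl A → gs (fs A) = A) (J : TW n F) :
    ∃ J' : TW n F₂, ∀ A, Mem J A → Mem J' (fs A) := by
  obtain ⟨A, B, hA, hB, hAB⟩ := two_flats W hn R J
  have sh : ∀ A B, Mem J A → Mem J B → ∃ K, Mem K (fs A) ∧ Mem K (fs B) := by
    intro A B hA hB
    have h1 := share_of_common W hu hA hB
    have h2 := share_map (nd_symm W.norm) (nd_tri W.norm) (nd_tri W₂.norm) hq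
      (hfs A hA.isFl).2 (hfs B hB.isFl).2 h1
    exact common_of_share W₂ hn hℓ₂ (hfs A hA.isFl).1 (hfs B hB.isFl).1 h2
  have hne : fs A ≠ fs B := by
    intro h
    apply hAB
    rw [← hgf A hA.isFl, ← hgf B hB.isFl, h]
  obtain ⟨J', h1, h2⟩ := sh A B hA hB
  refine ⟨J', ?_⟩
  intro E hE
  exact meet3 W₂ hn R₂ h1 h2 hne (sh E A hE hA) (sh E B hE hB)

theorem phi_psi {F₂ : Type} [Group F₂] (hn : 5 ≤ n) {P : GP n F ℓ} (W : Walls P)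
    (R : RFL ℓ n)
    {fs : Set (CP n F) → Set (CP n F₂)} {gs : Set (CP n F₂) → Set (CP n F)}
    (hgf : ∀ A, IsFl A → gs (fs A) = A) {Φ : TW n F → TW n F₂} {Ψ : TW n F₂ → TW n F}
    (hΦ : ∀ J A, Mem J A → Mem (Φ J) (fs A)) (hΨ : ∀ J A, Mem J A → Mem (Ψ J) (gs A))
    (J : TW n F) : Ψ (Φ J) = J := by
  obtain ⟨A, B, hA, hB, hAB⟩ := two_flats W hn R J
  have h1 := hΨ _ _ (hΦ J A hA)
  have h2 := hΨ _ _ (hΦ J B hB)
  rw [hgf A hA.isFl] at h1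
  rw [hgf B hB.isFl] at h2
  by_contra hne
  exact hAB (share_unique W hn h1 hA h2 hB R hne)

/-- the map on tree-walls induced by a quasi-isometry which maps flats near flats -/
structure TreeMap {F₁ F₂ : Type} [Group F₁] [Group F₂] (ℓ₂ : F₂ → ℕ)
    (C : ℕ) (f : CP n F₁ → CP n F₂) (Φ : TW n F₁ → TW n F₂) (Ψ : TW n F₂ → TW n F₁) : Prop where
  inv : ∀ J, Ψ (Φ J) = J
  crs : ∀ J K, Crs J K → Crs (Φ J) (Φ K)
  near : ∀ J w, J.has w → ∃ e, (Φ J).has e ∧ nd (gN ℓ₂) (f w) e ≤ C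

theorem GTa_main {F₁ F₂ : Type} [Group F₁] [Group F₂] {ℓ₁ : F₁ → ℕ} {ℓ₂ : F₂ → ℕ} (hn : 5 ≤ n)
    (h₁ : IsNorm ℓ₁) (h₂ : IsNorm ℓ₂)
    {P₁ : GP n F₁ ℓ₁} (W₁ : Walls P₁) (R₁ : RFL ℓ₁ n) {P₂ : GP n F₂ ℓ₂} (W₂ : Walls P₂)
    (R₂ : RFL ℓ₂ n) (hu₁ : ∀ r : ℕ, ∃ a, r < ℓ₁ a) (hu₂ : ∀ r : ℕ, ∃ a, r < ℓ₂ a)
    {K C : ℕ} {f : CP n F₁ → CP n F₂}
    {g : CP n F₂ → CP n F₁} (hq : QIP (nd (gN ℓ₁)) (nd (gN ℓ₂)) K f g)
    (hf : ∀ y i, ∃ y' i', Nb (nd (gN ℓ₂)) C (f '' FL y i) (FL y' i'))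
    (hg : ∀ y i, ∃ y' i', Nb (nd (gN ℓ₁)) C (g '' FL y i) (FL y' i')) :
    ∃ (Φ : TW n F₁ → TW n F₂) (Ψ : TW n F₂ → TW n F₁), TreeMap ℓ₂ C f Φ Ψ ∧
      TreeMap ℓ₁ C g Ψ Φ := by
  obtain ⟨fs, hfs⟩ := choose_flat hf
  obtain ⟨gs, hgs⟩ := choose_flat hg
  have hgf := back_flat W₁ R₁ hq hfs hgs
  have hfg := back_flat W₂ R₂ (qip_swap hq) hgs hfs
  choose Φ hΦ using exists_phi hn W₁ R₁ W₂ R₂ hu₁ h₂ hq hfs hgf
  choose Ψ hΨ using exists_phi hn W₂ R₂ W₁ R₁ hu₂ h₁ (qip_swap hq) hgs hfg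
  have i1 := phi_psi hn W₁ R₁ hgf hΦ hΨ
  have i2 := phi_psi hn W₂ R₂ hfg hΨ hΦ
  refine ⟨Φ, Ψ, ⟨i1, ?_, ?_⟩, ⟨i2, ?_, ?_⟩⟩
  · intro J K h
    obtain ⟨h3, A, hA, hA'⟩ := crs_Mem W₁ h
    exact Mem_crs W₂ R₂ (hΦ _ _ hA) (hΦ _ _ hA') (fun e => h3 (by rw [← i1 J, ← i1 K, e]))
  · intro J w hw
    obtain ⟨h3, h4⟩ := flat_through J w hw
    obtain ⟨e, he, hd⟩ := (hfs _ h3.isFl).2 (f w) ⟨w, h4, rfl⟩
    exact ⟨e, has_of_Mem W₂ (hΦ _ _ h3) he, hd⟩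
  · intro J K h
    obtain ⟨h3, A, hA, hA'⟩ := crs_Mem W₂ h
    exact Mem_crs W₁ R₁ (hΨ _ _ hA) (hΨ _ _ hA') (fun e => h3 (by rw [← i2 J, ← i2 K, e]))
  · intro J w hw
    obtain ⟨h3, h4⟩ := flat_through J w hw
    obtain ⟨e, he, hd⟩ := (hgs _ h3.isFl).2 (g w) ⟨w, h4, rfl⟩
    exact ⟨e, has_of_Mem W₁ (hΨ _ _ h3) he, hd⟩

end GT

end CQ
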